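import Pool.Agent.L0h5.TQ.Sv3
import Pool.Agent.L0h5.TH.CrtU

/-!
# The Chinese remainder theorem and the sieve for pairs
-/

set_option autoImplicit false
set_option linter.unusedSectionVars false

namespace Pool.Agent.L0h5.TQ

open Finset Pool.Agent.W262.RK Pool.Agent.L0h5.TF Pool.Agent.L0h5.TH

section

variable {Q : ℕ → ℤ → ℤ → Prop} {z y X c N : ℕ} {x1 x2 : ℤ} {C : ℝ}

/-- the conclusion of the sieve -/
def SvQ2 (Q : ℕ → ℤ → ℤ → Prop) (z y X c N : ℕ) (x1 x2 : ℤ) (C : ℝ) : Prop :=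
  ∀ (r1 r2 : ℤ) (m : ℕ), 1 ≤ m → m ^ 4 ≤ X → ∀ T' : Finset (ℤ × ℤ), (∀ t ∈ T', x1 < t.1 ∧
    t.1 ≤ x1 + X ∧ x2 < t.2 ∧ t.2 ≤ x2 + X ∧ (m : ℤ) ∣ t.1 - r1 ∧ (m : ℤ) ∣ t.2 - r2 ∧
    ∀ p ∈ PS z y, ¬ p ∣ m → ¬ Q p t.1 t.2) →
    (T'.card : ℝ) ≤
      C * (X / m) ^ 2 * (∏ p ∈ m.primeFactors.filter (fun p => p ∈ PS z y),
        (p : ℝ) / ((p : ℝ) - c)) / (Real.log y) ^ N

theorem crtU2 (hsv : SvQ2 Q z y X c N x1 x2 C)
    (hC : 0 ≤ C) (hzc : c ≤ z)
    (S : Finset ℕ) (hS : ∀ p ∈ S, p.Prime) (e : ℕ → ℕ) (he : ∀ p ∈ S, e p ≠ 0)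
    (W : ℕ → Finset (ℕ × ℕ)) (a : ℕ → ℝ)
    (hW : ∀ p ∈ S, ((W p).card : ℝ) ≤ ((p : ℝ) ^ e p) ^ 2 * a p)
    (hq : (∏ p ∈ S, p ^ e p) ^ 4 ≤ X) (T : Finset (ℤ × ℤ))
    (hT : ∀ t ∈ T, x1 < t.1 ∧ t.1 ≤ x1 + X ∧ x2 < t.2 ∧ t.2 ≤ x2 + X ∧
      (∀ p ∈ S, (rs t.1 (p ^ e p), rs t.2 (p ^ e p)) ∈ W p) ∧
      ∀ p ∈ PS z y, p ∉ S → ¬ Q p t.1 t.2) :
    (T.card : ℝ) ≤ C * (X : ℝ) ^ 2 * (∏ p ∈ S, a p) * (∏ p ∈ S.filter (fun p => p ∈ PS z y),
        (p : ℝ) / ((p : ℝ) - c)) / (Real.log y) ^ N := by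
  classical
  set q := ∏ p ∈ S, p ^ e p with hqd
  have hq0 : q ≠ 0 := by
    rw [hqd, prod_ne_zero_iff]
    intro p hp
    exact pow_ne_zero _ (hS p hp).ne_zero
  have hqpf : q.primeFactors = S := by
    rw [hqd]
    ext p
    rw [Nat.mem_primeFactors]
    constructor
    · rintro ⟨hp, hd, -⟩
      obtain ⟨r, hr, hpr⟩ := (hp.prime.dvd_finsetProd_iff _).1 hd
      have h1 := hp.dvd_of_dvd_pow hpr
      rwa [(Nat.prime_dvd_prime_iff_eq hp (hS r hr)).1 h1]
    · intro hp
      exact ⟨hS p hp, (dvd_pow_self p (he p hp)).trans (dvd_prod_of_mem _ hp), hq0⟩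
  have hpq : ∀ p ∈ S, p ^ e p ∣ q := fun p hp => dvd_prod_of_mem (fun p => p ^ e p) hp
  set A := (range q ×ˢ range q).filter (fun x : ℕ × ℕ => ∀ p ∈ S,
    (x.1 % p ^ e p, x.2 % p ^ e p) ∈ W p) with hA
  have hmap : ∀ t ∈ T, (rs t.1 q, rs t.2 q) ∈ A := by
    intro t ht
    rw [hA, mem_filter, mem_product, mem_range, mem_range]
    refine ⟨⟨rs_lt t.1 hq0, rs_lt t.2 hq0⟩, fun p hp => ?_⟩
    rw [rs_mod t.1 hq0 (hpq p hp), rs_mod t.2 hq0 (hpq p hp)]
    exact (hT t ht).2.2.2.2.1 p hp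
  have hfib : ∀ r ∈ A, ((T.filter (fun t => (rs t.1 q, rs t.2 q) = r)).card : ℝ) ≤
      C * (X / (q : ℝ)) ^ 2 * (∏ p ∈ S.filter (fun p => p ∈ PS z y),
        (p : ℝ) / ((p : ℝ) - c)) / (Real.log y) ^ N := by
    intro r hr
    have h1 := hsv r.1 r.2 q (Nat.pos_of_ne_zero hq0) hq
      (T.filter (fun t => (rs t.1 q, rs t.2 q) = r)) (by
      intro t ht
      rw [mem_filter] at ht
      obtain ⟨h3, h4, h3', h4', h5, h6⟩ := hT t ht.1
      have hr1 : rs t.1 q = r.1 := congrArg Prod.fst ht.2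
      have hr2 : rs t.2 q = r.2 := congrArg Prod.snd ht.2
      refine ⟨h3, h4, h3', h4', ?_, ?_, fun p hp hpq => h6 p hp fun hpS => hpq ?_⟩
      · rw [← hr1]
        exact rs_dvd t.1 hq0
      · rw [← hr2]
        exact rs_dvd t.2 hq0
      · exact (dvd_pow_self p (he p hpS)).trans (dvd_prod_of_mem (fun p => p ^ e p) hpS))
    rwa [hqpf] at h1
  have hD : 0 ≤ ∏ p ∈ S.filter (fun p => p ∈ PS z y), (p : ℝ) / ((p : ℝ) - c) := by
    refine prod_nonneg fun p hp => ?_
    have h1 := (mem_PS.1 (mem_filter.1 hp).2).1.1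
    have h2 : (c : ℝ) ≤ p := by exact_mod_cast (by omega : c ≤ p)
    exact div_nonneg (Nat.cast_nonneg _) (by linarith)
  have hcA : (A.card : ℝ) ≤ (q : ℝ) ^ 2 * ∏ p ∈ S, a p := by
    have h1 : A.card ≤ ∏ p ∈ S, (W p).card := by
      have h2 : A.card ≤ (S.pi W).card := by
        apply card_le_card_of_injOn (fun x => fun p _ => (x.1 % p ^ e p, x.2 % p ^ e p))
        · intro x hx
          have hx' := mem_filter.1 (mem_coe.1 hx)
          rw [mem_coe, mem_pi]
          exact fun p hp => hx'.2 p hp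
        · intro x hx y hy hxy
          have hx' := mem_filter.1 (mem_coe.1 hx)
          have hy' := mem_filter.1 (mem_coe.1 hy)
          rw [mem_product, mem_range, mem_range] at hx' hy'
          have h3 : ∀ p ∈ S, x.1 % p ^ e p = y.1 % p ^ e p ∧ x.2 % p ^ e p = y.2 % p ^ e p := by
            intro p hp
            have h4 := congrFun (congrFun hxy p) hp
            simp only [Prod.mk.injEq] at h4
            exact h4
          have hco : ∀ p ∈ S, ∀ r ∈ S, p ≠ r → Nat.Coprime (p ^ e p) (r ^ e r) :=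
            fun p hp r hr hpr => Nat.Coprime.pow _ _ ((Nat.coprime_primes (hS p hp) (hS r hr)).2 hpr)
          have h5 : ∀ u v : ℕ, u < q → v < q → (∀ p ∈ S, u % p ^ e p = v % p ^ e p) → u = v := by
            intro u v hu hv huv
            have h6 : (q : ℤ) ∣ (v : ℤ) - u := by
              rw [hqd]
              push_cast
              apply Finset.prod_dvd_of_coprime
              · intro p hp r hr hpr
                have h7 := hco p hp r hr hpr
                have h8 := Nat.isCoprime_iff_coprime.2 h7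
                push_cast at h8
                exact h8
              · intro p hp
                have h7 : u ≡ v [MOD p ^ e p] := huv p hp
                have h8 := (Nat.modEq_iff_dvd).1 h7
                push_cast at h8
                exact h8
            have h7 : u ≡ v [MOD q] := (Nat.modEq_iff_dvd).2 h6
            have h8 : u % q = v % q := h7
            rwa [Nat.mod_eq_of_lt hu, Nat.mod_eq_of_lt hv] at h8
          exact Prod.ext (h5 _ _ hx'.1.1 hy'.1.1 fun p hp => (h3 p hp).1)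
            (h5 _ _ hx'.1.2 hy'.1.2 fun p hp => (h3 p hp).2)
      rwa [card_pi] at h2
    have h3 : (A.card : ℝ) ≤ ∏ p ∈ S, ((W p).card : ℝ) := by exact_mod_cast h1
    refine h3.trans ((prod_le_prod (fun p _ => Nat.cast_nonneg _) hW).trans (le_of_eq ?_))
    rw [prod_mul_distrib, hqd]
    push_cast
    rw [prod_pow]
  have h1 : (T.card : ℝ) = ∑ r ∈ A, ((T.filter (fun t => (rs t.1 q, rs t.2 q) = r)).card : ℝ) := by
    exact_mod_cast card_eq_sum_card_fiberwise (f := fun t : ℤ × ℤ => (rs t.1 q, rs t.2 q)) (t := A) hmap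
  rw [h1]
  refine (sum_le_sum hfib).trans ?_
  rw [sum_const, nsmul_eq_mul]
  have hl : 0 ≤ (Real.log y) ^ N := pow_nonneg (Real.log_natCast_nonneg y) _
  have hqr : (q : ℝ) ≠ 0 := by exact_mod_cast hq0
  calc (A.card : ℝ) * (C * (X / (q : ℝ)) ^ 2 * (∏ p ∈ S.filter (fun p => p ∈ PS z y),
        (p : ℝ) / ((p : ℝ) - c)) / (Real.log y) ^ N) ≤
      ((q : ℝ) ^ 2 * ∏ p ∈ S, a p) * (C * (X / (q : ℝ)) ^ 2 *
        (∏ p ∈ S.filter (fun p => p ∈ PS z y),
        (p : ℝ) / ((p : ℝ) - c)) / (Real.log y) ^ N) := by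
        apply mul_le_mul_of_nonneg_right hcA
        positivity
    _ = _ := by
      field_simp

/-- the count with given divisors -/
theorem cnt2 (hsv : SvQ2 Q z y X c N x1 x2 C) (hC : 0 ≤ C) (hzc : 2 * c + 2 ≤ z) {Y s v u : ℕ}
    (hs : s ∈ (PP z y).divisors) (hv : v ∈ (PP z y).divisors) (hu : u ∈ (PP y Y).divisors)
    (hsvu : (s * v * u) ^ 8 ≤ X) (hcop : s.Coprime v) (W : ℕ → Finset (ℕ × ℕ))
    (hWs : ∀ p ∈ s.primeFactors, ((W p).card : ℝ) ≤ (p : ℝ) ^ 3 / 2)
    (hWv : ∀ p ∈ v.primeFactors, (W p).card ≤ c * p ^ 2)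
    (hWu : ∀ p ∈ u.primeFactors, (W p).card ≤ c * p)
    (T : Finset (ℤ × ℤ))
    (hT : ∀ t ∈ T, x1 < t.1 ∧ t.1 ≤ x1 + X ∧ x2 < t.2 ∧ t.2 ≤ x2 + X ∧
      (∀ p ∈ s.primeFactors, (rs t.1 (p ^ 2), rs t.2 (p ^ 2)) ∈ W p) ∧
      (∀ p ∈ v.primeFactors, (rs t.1 (p ^ 2), rs t.2 (p ^ 2)) ∈ W p) ∧
      (∀ p ∈ u.primeFactors, (rs t.1 p, rs t.2 p) ∈ W p) ∧
      ∀ p ∈ PS z y, p ∉ s.primeFactors → p ∉ v.primeFactors → ¬ Q p t.1 t.2) :
    (T.card : ℝ) ≤ C * (X : ℝ) ^ 2 * ((1 / 2) ^ s.primeFactors.card * gw 1 c s) *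
      ((c : ℝ) ^ v.primeFactors.card * (gw 1 c v / v)) *
      ((c : ℝ) ^ u.primeFactors.card / u) / (Real.log y) ^ N := by
  have hs0 : s ≠ 0 := dv_ne_zero hs
  have hv0 : v ≠ 0 := dv_ne_zero hv
  have hu0 : u ≠ 0 := dv_ne_zero hu
  have hsz : ∀ p ∈ s.primeFactors, (z < p ∧ p ≤ y) ∧ p.Prime := fun p hp =>
    ⟨dv_prime hs (Nat.prime_of_mem_primeFactors hp) (Nat.dvd_of_mem_primeFactors hp),
      Nat.prime_of_mem_primeFactors hp⟩
  have hvz : ∀ p ∈ v.primeFactors, (z < p ∧ p ≤ y) ∧ p.Prime := fun p hp =>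
    ⟨dv_prime hv (Nat.prime_of_mem_primeFactors hp) (Nat.dvd_of_mem_primeFactors hp),
      Nat.prime_of_mem_primeFactors hp⟩
  have huz : ∀ p ∈ u.primeFactors, (y < p ∧ p ≤ Y) ∧ p.Prime := fun p hp =>
    ⟨dv_prime hu (Nat.prime_of_mem_primeFactors hp) (Nat.dvd_of_mem_primeFactors hp),
      Nat.prime_of_mem_primeFactors hp⟩
  have dsv : Disjoint s.primeFactors v.primeFactors := hcop.disjoint_primeFactors
  have dsvu : Disjoint (s.primeFactors ∪ v.primeFactors) u.primeFactors := by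
    rw [disjoint_left]
    intro p hp hp'
    have h1 := (huz p hp').1.1
    rcases mem_union.1 hp with h2 | h2
    · have := (hsz p h2).1.2
      omega
    · have := (hvz p h2).1.2
      omega
  set S := (s.primeFactors ∪ v.primeFactors) ∪ u.primeFactors with hS
  have hSp : ∀ p ∈ S, p.Prime := by
    intro p hp
    rcases mem_union.1 hp with h1 | h1
    · rcases mem_union.1 h1 with h2 | h2
      · exact (hsz p h2).2
      · exact (hvz p h2).2
    · exact (huz p h1).2
  set e : ℕ → ℕ := fun p => if p ∈ u.primeFactors then 1 else 2 with he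
  set a : ℕ → ℝ := fun p => if p ∈ u.primeFactors then (c : ℝ) / p
    else if p ∈ v.primeFactors then (c : ℝ) / (p : ℝ) ^ 2 else 1 / (2 * p) with ha
  have es : ∀ p ∈ s.primeFactors, p ∉ u.primeFactors ∧ p ∉ v.primeFactors := fun p hp =>
    ⟨fun h => (disjoint_left.1 dsvu (mem_union_left _ hp)) h,
      fun h => (disjoint_left.1 dsv hp) h⟩
  have ev : ∀ p ∈ v.primeFactors, p ∉ u.primeFactors := fun p hp h =>
    (disjoint_left.1 dsvu (mem_union_right _ hp)) h
  have splitN : ∀ F : ℕ → ℕ, ∏ p ∈ S, F p =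
      (∏ p ∈ s.primeFactors, F p) * (∏ p ∈ v.primeFactors, F p) * ∏ p ∈ u.primeFactors, F p := by
    intro F
    rw [hS, prod_union dsvu, prod_union dsv]
  have splitR : ∀ F : ℕ → ℝ, ∏ p ∈ S, F p =
      (∏ p ∈ s.primeFactors, F p) * (∏ p ∈ v.primeFactors, F p) * ∏ p ∈ u.primeFactors, F p := by
    intro F
    rw [hS, prod_union dsvu, prod_union dsv]
  have prs : ∏ p ∈ s.primeFactors, p = s := Nat.prod_primeFactors_of_squarefree (dv_squarefree hs)
  have prv : ∏ p ∈ v.primeFactors, p = v := Nat.prod_primeFactors_of_squarefree (dv_squarefree hv)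
  have pru : ∏ p ∈ u.primeFactors, p = u := Nat.prod_primeFactors_of_squarefree (dv_squarefree hu)
  have hq : ∏ p ∈ S, p ^ e p = s ^ 2 * v ^ 2 * u := by
    rw [splitN]
    congr 1
    · congr 1
      · rw [← prs, ← prod_pow]
        rw [prs]
        refine prod_congr rfl fun p hp => ?_
        rw [he]
        simp only [(es p hp).1, if_false]
      · rw [← prv, ← prod_pow]
        rw [prv]
        refine prod_congr rfl fun p hp => ?_
        rw [he]
        simp only [ev p hp, if_false]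
    · conv_rhs => rw [← pru]
      refine prod_congr rfl fun p hp => ?_
      rw [he]
      simp only [hp, if_true, pow_one]
  have hqX : (∏ p ∈ S, p ^ e p) ^ 4 ≤ X := by
    rw [hq]
    refine le_trans ?_ hsvu
    have h1 : (s ^ 2 * v ^ 2 * u) ≤ (s * v * u) ^ 2 := by
      have h2 : u ≤ u ^ 2 := Nat.le_self_pow two_ne_zero u
      calc s ^ 2 * v ^ 2 * u ≤ s ^ 2 * v ^ 2 * u ^ 2 := Nat.mul_le_mul_left _ h2
        _ = _ := by ring
    calc (s ^ 2 * v ^ 2 * u) ^ 4 ≤ ((s * v * u) ^ 2) ^ 4 := Nat.pow_le_pow_left h1 4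
      _ = _ := by rw [← pow_mul]
  have hppos : ∀ p ∈ S, (0 : ℝ) < p := fun p hp => by exact_mod_cast (hSp p hp).pos
  have hmain := crtU2 hsv hC (by omega) S hSp e (fun p _ => by
      rw [he]
      simp only
      split_ifs <;> norm_num) W a (fun p hp => by
      have hp0 := hppos p hp
      rw [he, ha]
      simp only
      by_cases h1 : p ∈ u.primeFactors
      · rw [if_pos h1, if_pos h1, pow_one]
        have h2 : ((W p).card : ℝ) ≤ ((c * p : ℕ) : ℝ) := by exact_mod_cast hWu p h1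
        refine h2.trans (le_of_eq ?_)
        push_cast
        field_simp
      · rw [if_neg h1, if_neg h1]
        by_cases h2 : p ∈ v.primeFactors
        · rw [if_pos h2]
          have h3 : ((W p).card : ℝ) ≤ ((c * p ^ 2 : ℕ) : ℝ) := by exact_mod_cast hWv p h2
          refine h3.trans (le_of_eq ?_)
          push_cast
          field_simp
        · rw [if_neg h2]
          have h3 : p ∈ s.primeFactors := by
            rcases mem_union.1 hp with h4 | h4
            · rcases mem_union.1 h4 with h5 | h5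
              · exact h5
              · exact absurd h5 h2
            · exact absurd h4 h1
          refine (hWs p h3).trans (le_of_eq ?_)
          field_simp) hqX T (fun t ht => by
      obtain ⟨h1, h2, h1', h2', h3, h4, h5, h6⟩ := hT t ht
      refine ⟨h1, h2, h1', h2', fun p hp => ?_, fun p hp hpS => h6 p hp (fun h => hpS
        (mem_union_left _ (mem_union_left _ h))) (fun h => hpS
        (mem_union_left _ (mem_union_right _ h)))⟩
      rw [he]
      simp only
      rcases mem_union.1 hp with hp1 | hp1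
      · rcases mem_union.1 hp1 with hp2 | hp2
        · rw [if_neg (es p hp2).1]
          exact h3 p hp2
        · rw [if_neg (ev p hp2)]
          exact h4 p hp2
      · rw [if_pos hp1, pow_one]
        exact h5 p hp1)
  have hSf : S.filter (fun p => p ∈ PS z y) = s.primeFactors ∪ v.primeFactors := by
    ext p
    rw [mem_filter, hS, mem_union]
    constructor
    · rintro ⟨h1 | h1, h2⟩
      · exact h1
      · have h3 := (huz p h1).1.1
        have h4 := (mem_PS.1 h2).1.2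
        omega
    · intro h1
      refine ⟨Or.inl h1, ?_⟩
      rcases mem_union.1 h1 with h2 | h2
      · exact mem_PS.2 (hsz p h2)
      · exact mem_PS.2 (hvz p h2)
  refine hmain.trans (le_of_eq ?_)
  rw [hSf, prod_union dsv, splitR]
  have hpc : ∀ p : ℕ, z < p → (p : ℝ) - c ≠ 0 := by
    intro p hp
    have h1 : (c : ℝ) + 1 ≤ p := by exact_mod_cast (by omega : c + 1 ≤ p)
    have : (0 : ℝ) < (p : ℝ) - c := by linarith
    exact this.ne'
  have g1 : (∏ p ∈ s.primeFactors, a p) * ∏ p ∈ s.primeFactors, ((p : ℝ) / ((p : ℝ) - c)) =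
      (1 / 2) ^ s.primeFactors.card * gw 1 c s := by
    rw [← prod_mul_distrib, ← prod_const]
    unfold gw
    rw [← prod_mul_distrib]
    refine prod_congr rfl fun p hp => ?_
    have hp0 := hppos p (mem_union_left _ (mem_union_left _ hp))
    have h1 := hpc p (hsz p hp).1.1
    rw [ha]
    simp only [(es p hp).1, (es p hp).2, if_false]
    field_simp
  have g2 : (∏ p ∈ v.primeFactors, a p) * ∏ p ∈ v.primeFactors, ((p : ℝ) / ((p : ℝ) - c)) =
      (c : ℝ) ^ v.primeFactors.card * (gw 1 c v / v) := by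
    have h0 : (v : ℝ) = ∏ p ∈ v.primeFactors, (p : ℝ) := by
      rw [← Nat.cast_prod, prv]
    conv_rhs => rw [h0]
    unfold gw
    rw [← prod_mul_distrib, ← prod_const, ← prod_div_distrib, ← prod_mul_distrib]
    refine prod_congr rfl fun p hp => ?_
    have hp0 := hppos p (mem_union_left _ (mem_union_right _ hp))
    have h1 := hpc p (hvz p hp).1.1
    rw [ha]
    simp only [ev p hp, hp, if_false, if_true]
    field_simp
  have g3 : ∏ p ∈ u.primeFactors, a p = (c : ℝ) ^ u.primeFactors.card / u := by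
    have h0 : (u : ℝ) = ∏ p ∈ u.primeFactors, (p : ℝ) := by
      rw [← Nat.cast_prod, pru]
    conv_rhs => rw [h0]
    rw [← prod_const, ← prod_div_distrib]
    refine prod_congr rfl fun p hp => ?_
    rw [ha]
    simp only [hp, if_true]
  rw [← g1, ← g2, ← g3]
  ring

end

end Pool.Agent.L0h5.TQ
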