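import Pool.Agent.L0h5.TQ.LocH

/-!
# Values of the homogenization of a polynomial
-/

set_option autoImplicit false
set_option linter.unusedSectionVars false

namespace Pool.Agent.L0h5.TQ

open Finset Polynomial Pool.Agent.W262.RK Pool.Agent.L0h5.TF Pool.Agent.L0h5.MR
  Pool.Agent.L0h5.TH

/-- the value of the homogenization -/
noncomputable def hv (P : ℤ[X]) (t : ℤ × ℤ) : ℤ := (P.scaleRoots t.2).eval t.1

lemma hv_sum (P : ℤ[X]) (t : ℤ × ℤ) : hv P t =
    ∑ i ∈ range (P.natDegree + 1), P.coeff i * t.1 ^ i * t.2 ^ (P.natDegree - i) := by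
  unfold hv
  rw [eval_eq_sum_range, natDegree_scaleRoots]
  refine sum_congr rfl fun i _ => ?_
  rw [coeff_scaleRoots]
  ring

lemma hv_mul (P Q : ℤ[X]) (t : ℤ × ℤ) : hv (P * Q) t = hv P t * hv Q t := by
  unfold hv
  rw [mul_scaleRoots_of_noZeroDivisors, eval_mul]

lemma hv_C (c : ℤ) (t : ℤ × ℤ) : hv (C c) t = c := by
  rw [hv_sum, natDegree_C]
  simp

lemma hv_one (t : ℤ × ℤ) : hv 1 t = 1 := by
  have := hv_C 1 t
  rwa [C_1] at this

lemma hv_pow (P : ℤ[X]) (n : ℕ) (t : ℤ × ℤ) : hv (P ^ n) t = hv P t ^ n := by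
  induction n with
  | zero => rw [pow_zero, pow_zero, hv_one]
  | succ n ih => rw [pow_succ, hv_mul, ih, pow_succ]

lemma hv_prod {J : Type} [DecidableEq J] (s : Finset J) (P : J → ℤ[X]) (t : ℤ × ℤ) :
    hv (∏ j ∈ s, P j) t = ∏ j ∈ s, hv (P j) t := by
  induction s using Finset.induction_on with
  | empty => rw [prod_empty, prod_empty, hv_one]
  | insert j s hj ih => rw [prod_insert hj, prod_insert hj, hv_mul, ih]

lemma hv_congr (P : ℤ[X]) {n : ℤ} {t t' : ℤ × ℤ} (h1 : n ∣ t.1 - t'.1) (h2 : n ∣ t.2 - t'.2) :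
    n ∣ hv P t - hv P t' := by
  rw [hv_sum, hv_sum, ← sum_sub_distrib]
  refine dvd_sum fun i _ => ?_
  have e : P.coeff i * t.1 ^ i * t.2 ^ (P.natDegree - i) -
      P.coeff i * t'.1 ^ i * t'.2 ^ (P.natDegree - i) =
      P.coeff i * ((t.1 ^ i - t'.1 ^ i) * t.2 ^ (P.natDegree - i) +
        t'.1 ^ i * (t.2 ^ (P.natDegree - i) - t'.2 ^ (P.natDegree - i))) := by ring
  rw [e]
  refine Dvd.dvd.mul_left (dvd_add (Dvd.dvd.mul_right ?_ _) (Dvd.dvd.mul_left ?_ _)) _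
  · exact h1.trans (sub_dvd_pow_sub_pow _ _ _)
  · exact h2.trans (sub_dvd_pow_sub_pow _ _ _)

lemma hv_scale (P : ℤ[X]) (b t : ℤ) : hv P (b * t, b) = b ^ P.natDegree * P.eval t := by
  rw [hv_sum, eval_eq_sum_range, mul_sum]
  refine sum_congr rfl fun i hi => ?_
  have hi' : i ≤ P.natDegree := by
    have := mem_range.1 hi
    omega
  simp only
  rw [mul_pow]
  have e : b ^ P.natDegree = b ^ i * b ^ (P.natDegree - i) := by
    rw [← pow_add]
    congr 1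
    omega
  rw [e]
  ring

/-- the value modulo `n` if `b t = a` modulo `n` -/
lemma hv_mod (P : ℤ[X]) {n a b t : ℤ} (h : n ∣ b * t - a) :
    n ∣ hv P (a, b) - b ^ P.natDegree * P.eval t := by
  rw [← hv_scale]
  apply hv_congr
  · rw [← neg_sub]
    exact h.neg_right
  · rw [sub_self]
    exact dvd_zero _

lemma hv_lead (P : ℤ[X]) {n a b : ℤ} (h : n ∣ b) :
    n ∣ hv P (a, b) - P.leadingCoeff * a ^ P.natDegree := by
  have h1 := hv_congr P (t := (a, b)) (t' := (a, 0)) (n := n) (by simp) (by simpa using h)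
  have h2 : hv P (a, 0) = P.leadingCoeff * a ^ P.natDegree := by
    rw [hv_sum, sum_range_succ, sum_eq_zero]
    · rw [zero_add, coeff_natDegree, Nat.sub_self, pow_zero, mul_one]
    · intro i hi
      have : P.natDegree - i ≠ 0 := by
        have := mem_range.1 hi
        omega
      simp [this]
  rwa [h2] at h1

lemma natAbs_hv (P : ℤ[X]) {t : ℤ × ℤ} {B : ℕ} (h1 : t.1.natAbs ≤ B) (h2 : t.2.natAbs ≤ B) :
    (hv P t).natAbs ≤
      (∑ i ∈ range (P.natDegree + 1), (P.coeff i).natAbs) * B ^ P.natDegree := by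
  rw [hv_sum, sum_mul]
  refine (Int.natAbs_sum_le _ _).trans (sum_le_sum fun i hi => ?_)
  rw [Int.natAbs_mul, Int.natAbs_mul, Int.natAbs_pow, Int.natAbs_pow, mul_assoc]
  refine Nat.mul_le_mul_left _ ?_
  have hi' : i ≤ P.natDegree := by
    have := mem_range.1 hi
    omega
  calc t.1.natAbs ^ i * t.2.natAbs ^ (P.natDegree - i) ≤ B ^ i * B ^ (P.natDegree - i) :=
        Nat.mul_le_mul (Nat.pow_le_pow_left h1 _) (Nat.pow_le_pow_left h2 _)
    _ = _ := by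
      rw [← pow_add]
      congr 1
      omega

lemma hv_sub {P Q R : ℤ[X]} (h : P - Q = R) {n : ℕ} (hP : P.natDegree = n) (hQ : Q.natDegree = n)
    (hR : R.natDegree = n) (t : ℤ × ℤ) : hv P t - hv Q t = hv R t := by
  rw [hv_sum, hv_sum, hv_sum, hP, hQ, hR, ← sum_sub_distrib]
  refine sum_congr rfl fun i _ => ?_
  rw [← h, coeff_sub]
  ring

/-- the value over the rationals -/
lemma hv_rat (P : ℤ[X]) {a b : ℤ} (hb : b ≠ 0) :
    ((hv P (a, b) : ℤ) : ℚ) = (b : ℚ) ^ P.natDegree *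
      (P.map (Int.castRingHom ℚ)).eval ((a : ℚ) / b) := by
  have hb' : (b : ℚ) ≠ 0 := by exact_mod_cast hb
  rw [hv_sum, eval_map, eval₂_eq_sum_range, mul_sum]
  push_cast
  refine sum_congr rfl fun i hi => ?_
  have hi' : i ≤ P.natDegree := by
    have := mem_range.1 hi
    omega
  have e : (b : ℚ) ^ P.natDegree = b ^ i * b ^ (P.natDegree - i) := by
    rw [← pow_add]
    congr 1
    omega
  rw [e, div_pow, eq_intCast]
  field_simp

/-- a solution of `b t = a` modulo `p ^ 2` -/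
lemma exists_t {p : ℕ} (hp : p.Prime) (a : ℤ) {b : ℤ} (hb : ¬ (p : ℤ) ∣ b) :
    ∃ t : ℕ, t < p ^ 2 ∧ ((p : ℤ) ^ 2) ∣ b * t - a := by
  have h1 : IsCoprime ((p : ℤ) ^ 2) b :=
    ((Prime.coprime_iff_not_dvd (Nat.prime_iff_prime_int.1 hp)).2 hb).pow_left
  obtain ⟨u, v, huv⟩ := h1
  have hp2 : p ^ 2 ≠ 0 := pow_ne_zero _ hp.ne_zero
  refine ⟨rs (v * a) (p ^ 2), rs_lt _ hp2, ?_⟩
  have h2 := rs_dvd (v * a) hp2
  push_cast at h2
  have e : b * (rs (v * a) (p ^ 2) : ℤ) - a =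
      -(b * (v * a - (rs (v * a) (p ^ 2) : ℤ))) + a * (v * b - 1) := by ring
  rw [e]
  refine dvd_add (h2.mul_left b).neg_right (Dvd.dvd.mul_left ?_ a)
  exact ⟨-u, by linarith⟩

open Classical in
/-- the residue of `a / b` modulo `p ^ 2` -/
noncomputable def tp (t : ℤ × ℤ) (p : ℕ) : ℕ :=
  if h : ∃ x : ℕ, x < p ^ 2 ∧ ((p : ℤ) ^ 2) ∣ t.2 * x - t.1 then h.choose else 0

lemma tp_spec {p : ℕ} (hp : p.Prime) {t : ℤ × ℤ} (hb : ¬ (p : ℤ) ∣ t.2) :
    tp t p < p ^ 2 ∧ ((p : ℤ) ^ 2) ∣ t.2 * (tp t p : ℤ) - t.1 := by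
  have h := exists_t hp t.1 hb
  unfold tp
  rw [dif_pos h]
  exact h.choose_spec

end Pool.Agent.L0h5.TQ
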