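import Pool.Agent.L0h5.TQ.Q2

/-!
# Pairs of integers: the main estimate
-/

set_option autoImplicit false
set_option linter.unusedSectionVars false

namespace Pool.Agent.L0h5.TQ

open Finset Polynomial Pool.Agent.W262.RK Pool.Agent.L0h5.TF Pool.Agent.L0h5.MR
  Pool.Agent.L0h5.TH

section

variable {J : Type} [Fintype J] [DecidableEq J] {P : J → ℤ[X]} {a : Fin 3 → ℤ} {δ : J → Bool}
  {q : J → Fin 3} {m : J → ℕ} {z : ℕ}

open Classical in
/-- the number of the forbidden classes -/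
noncomputable def nuH (P : J → ℤ[X]) (p : ℕ) : ℕ :=
  ((range p ×ˢ range p).filter (fun x : ℕ × ℕ => QH P p (x.1 : ℤ) (x.2 : ℤ))).card

lemma nuH_le (g : Gz P a z) {p : ℕ} (hp : p.Prime) (hz : z < p) {c : ℕ}
    (hc : c = ∑ j, (P j).natDegree) (hc1 : 1 ≤ c) : nuH P p ≤ c * p := by
  classical
  have hpi := Nat.prime_iff_prime_int.1 hp
  have hsub : (range p ×ˢ range p).filter (fun x : ℕ × ℕ => QH P p (x.1 : ℤ) (x.2 : ℤ)) ⊆
      ((rts (FF P) p ×ˢ Ico 1 p).image (fun x => (x.2 * x.1 % p, x.2))) ∪ {(0, 0)} := by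
    intro x hx
    rw [mem_filter, mem_product, mem_range, mem_range] at hx
    obtain ⟨⟨h1, h2⟩, h3⟩ := hx
    unfold QH at h3
    rw [mem_union, mem_image, mem_singleton]
    rcases Nat.eq_zero_or_pos x.2 with h0 | h0
    · right
      rw [h0] at h3
      have h4 := hv_lead (FF P) (a := (x.1 : ℤ)) (b := ((0 : ℕ) : ℤ)) (n := (p : ℤ))
        (by rw [Nat.cast_zero]; exact dvd_zero _)
      have h5 : (p : ℤ) ∣ (FF P).leadingCoeff * (x.1 : ℤ) ^ (FF P).natDegree := by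
        have := dvd_sub h3 h4
        rwa [sub_sub_cancel] at this
      have h6 : (p : ℤ) ∣ (x.1 : ℤ) := by
        rcases hpi.dvd_or_dvd h5 with h6 | h6
        · exfalso
          unfold FF at h6
          rw [leadingCoeff_prod, hpi.dvd_finsetProd_iff] at h6
          obtain ⟨j, -, hj⟩ := h6
          exact g.lc p hp hz j hj
        · exact hpi.dvd_of_dvd_pow h6
      have h7 : p ∣ x.1 := by exact_mod_cast h6
      have h8 : x.1 = 0 := Nat.eq_zero_of_dvd_of_lt h7 h1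
      exact Prod.ext h8 h0
    · left
      have hb : ¬ (p : ℤ) ∣ (x.2 : ℤ) := by
        intro hd
        have h7 : p ∣ x.2 := by exact_mod_cast hd
        have := Nat.le_of_dvd h0 h7
        omega
      have hb' : ¬ (p : ℤ) ∣ (((x.1 : ℤ), (x.2 : ℤ)) : ℤ × ℤ).2 := hb
      have h4 := (hv_iff1 (FF P) hp hb').1 h3
      obtain ⟨-, htp⟩ := tp_spec hp hb'
      set w := tp ((x.1 : ℤ), (x.2 : ℤ)) p with hw
      have hr := rs_dvd (w : ℤ) hp.ne_zero
      refine ⟨(rs (w : ℤ) p, x.2), ?_, ?_⟩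
      · rw [mem_product, mem_Ico]
        refine ⟨?_, h0, h2⟩
        unfold rts
        rw [mem_filter, mem_range]
        show rs (w : ℤ) p < p ∧ (p : ℤ) ∣ (FF P).eval ((rs (w : ℤ) p : ℕ) : ℤ)
        exact ⟨rs_lt _ hp.ne_zero, (dvd_eval_congr (FF P) hr).1 h4⟩
      · refine Prod.ext ?_ rfl
        have h5 : (p : ℤ) ∣ (x.1 : ℤ) - ((x.2 * rs (w : ℤ) p : ℕ) : ℤ) := by
          push_cast
          have e : (x.1 : ℤ) - (x.2 : ℤ) * (rs (w : ℤ) p : ℤ) =
              (x.2 : ℤ) * ((w : ℤ) - (rs (w : ℤ) p : ℤ)) - ((x.2 : ℤ) * (w : ℤ) - x.1) := by ring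
          rw [e]
          exact dvd_sub (hr.mul_left _) ((dvd_pow_self (p : ℤ) two_ne_zero).trans htp)
        have h6 : x.2 * rs (w : ℤ) p ≡ x.1 [MOD p] := (Nat.modEq_iff_dvd).2 h5
        have h7 : x.2 * rs (w : ℤ) p % p = x.1 % p := h6
        rw [Nat.mod_eq_of_lt h1] at h7
        exact h7
  unfold nuH
  refine (card_le_card hsub).trans ((card_union_le _ _).trans ?_)
  have h1 : ((rts (FF P) p ×ˢ Ico 1 p).image (fun x => (x.2 * x.1 % p, x.2))).card ≤
      c * (p - 1) := by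
    refine card_image_le.trans ?_
    rw [card_product, card_rts, Nat.card_Ico]
    refine Nat.mul_le_mul_right _ ?_
    rw [hc]
    exact g.rho_le_deg hp hz
  rw [card_singleton]
  have h2 : c * p = c * (p - 1) + c := by
    have := hp.pos
    obtain ⟨w, rfl⟩ : ∃ w, p = w + 1 := ⟨p - 1, by omega⟩
    rw [Nat.add_sub_cancel]
    ring
  omega

lemma nuH_ge {p : ℕ} (hp : p.Prime) : (p - 1) * rho (FF P) p ≤ nuH P p := by
  classical
  have h1 : (rts (FF P) p ×ˢ Ico 1 p).card ≤ nuH P p := by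
    unfold nuH
    apply card_le_card_of_injOn (fun x => (x.2 * x.1 % p, x.2))
    · intro x hx
      have hx' := mem_coe.1 hx
      rw [mem_product, mem_Ico] at hx'
      obtain ⟨h2, h3, h4⟩ := hx'
      unfold rts at h2
      rw [mem_filter, mem_range] at h2
      rw [mem_coe, mem_filter, mem_product, mem_range, mem_range]
      refine ⟨⟨Nat.mod_lt _ hp.pos, h4⟩, ?_⟩
      show (p : ℤ) ∣ hv (FF P) (((x.2 * x.1 % p : ℕ) : ℤ), (x.2 : ℤ))
      have h5 : (p : ℤ) ∣ (x.2 : ℤ) * (x.1 : ℤ) - ((x.2 * x.1 % p : ℕ) : ℤ) := by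
        have := mod_dvd (x.2 * x.1) p
        push_cast at this ⊢
        exact this
      have h6 := hv_mod (FF P) (a := ((x.2 * x.1 % p : ℕ) : ℤ)) (b := (x.2 : ℤ))
        (t := (x.1 : ℤ)) h5
      have h7 := dvd_add h6 (h2.2.mul_left ((x.2 : ℤ) ^ (FF P).natDegree))
      rwa [sub_add_cancel] at h7
    · intro x hx x' hx' h
      have hx1 := mem_coe.1 hx
      have hx1' := mem_coe.1 hx'
      rw [mem_product, mem_Ico] at hx1 hx1'
      unfold rts at hx1 hx1'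
      rw [mem_filter, mem_range] at hx1 hx1'
      simp only [Prod.mk.injEq] at h
      obtain ⟨h2, h3⟩ := h
      refine Prod.ext ?_ h3
      rw [← h3] at h2
      have h4 : x.2 * x.1 ≡ x.2 * x'.1 [MOD p] := h2
      have h5 : Nat.Coprime p x.2 := by
        rw [hp.coprime_iff_not_dvd]
        intro hd
        have := Nat.le_of_dvd (by omega) hd
        omega
      have h6 : x.1 ≡ x'.1 [MOD p] := Nat.ModEq.cancel_left_of_coprime h5 h4
      have h7 : x.1 % p = x'.1 % p := h6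
      rwa [Nat.mod_eq_of_lt hx1.1.1, Nat.mod_eq_of_lt hx1'.1.1] at h7
  rw [card_product, card_rts, Nat.card_Ico, mul_comm] at h1
  exact h1

/-- the lower bound for the densities -/
lemma lowerQ (h : Fm P a) (g : Gz P a z) {c : ℕ} (hc : c = ∑ j, (P j).natDegree)
    (hz2 : 2 ≤ z) : ∃ C : ℝ, ∀ y : ℕ, 3 ≤ y → z < y →
    (Fintype.card J : ℕ) * Real.log (Real.log y) - C ≤
      ∑ p ∈ PS z y, (nuH P p : ℝ) / (p : ℝ) ^ 2 := by
  obtain ⟨C, hC⟩ := lower h g
  refine ⟨C + c, fun y hy hzy => ?_⟩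
  have h1 := hC y hy hzy
  have h2 : ∀ p ∈ PS z y, (rho (FF P) p : ℝ) / p - c * ((p : ℝ) ^ 2)⁻¹ ≤
      (nuH P p : ℝ) / (p : ℝ) ^ 2 := by
    intro p hp
    obtain ⟨⟨h3, h4⟩, h5⟩ := mem_PS.1 hp
    have hp1 : (1 : ℝ) < p := by exact_mod_cast h5.one_lt
    have hp0 : (0 : ℝ) < p := by linarith
    have h6 := nuH_ge (P := P) h5
    have h7 : ((p : ℝ) - 1) * rho (FF P) p ≤ nuH P p := by
      have h8 : (((p - 1) * rho (FF P) p : ℕ) : ℝ) ≤ nuH P p := by exact_mod_cast h6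
      rw [Nat.cast_mul, Nat.cast_sub h5.one_lt.le, Nat.cast_one] at h8
      exact h8
    have h8 : (rho (FF P) p : ℝ) ≤ c := by
      rw [hc]
      exact_mod_cast g.rho_le_deg h5 h3
    have h9 : (rho (FF P) p : ℝ) / p - c * ((p : ℝ) ^ 2)⁻¹ =
        ((p : ℝ) * rho (FF P) p - c) / (p : ℝ) ^ 2 := by
      field_simp
    rw [h9]
    apply div_le_div_of_nonneg_right _ (by positivity)
    nlinarith
  have h3 : ∑ p ∈ PS z y, ((p : ℝ) ^ 2)⁻¹ ≤ 1 := by
    have h4 : ∑ p ∈ PS z y, ((p : ℝ) ^ 2)⁻¹ ≤ ∑ p ∈ Ioc z y, ((p : ℝ) ^ 2)⁻¹ := by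
      apply sum_le_sum_of_subset_of_nonneg (filter_subset _ _)
      intro p _ _
      positivity
    have h5 := sum_Ioc_inv_sq_le_sub (α := ℝ) (k := z) (n := y) (by omega) hzy.le
    have h6 : ((z : ℝ))⁻¹ ≤ 1 := by
      apply inv_le_one_of_one_le₀
      exact_mod_cast (by omega : 1 ≤ z)
    have h7 : (0 : ℝ) ≤ ((y : ℝ))⁻¹ := by positivity
    linarith
  have h4 := sum_le_sum h2
  rw [sum_sub_distrib, ← mul_sum] at h4
  have hc0 : (0 : ℝ) ≤ c := Nat.cast_nonneg c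
  nlinarith

/-- the pairs -/
noncomputable def TH (P : J → ℤ[X]) (X : ℕ) : Finset (ℤ × ℤ) :=
  ((Icc (-(X : ℤ)) X) ×ˢ (Icc (-(X : ℤ)) X)).filter (fun t =>
    Int.gcd t.1 t.2 = 1 ∧ hv (FF P) t ≠ 0)

lemma mem_TH {X : ℕ} {t : ℤ × ℤ} : t ∈ TH P X ↔ ((-(X : ℤ) ≤ t.1 ∧ t.1 ≤ X) ∧
    (-(X : ℤ) ≤ t.2 ∧ t.2 ≤ X)) ∧ IsCoprime t.1 t.2 ∧ hv (FF P) t ≠ 0 := by
  unfold TH
  rw [mem_filter, mem_product, mem_Icc, mem_Icc, Int.isCoprime_iff_gcd_eq_one]

/-- **The main estimate for pairs** -/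
theorem mainQ [Nonempty J] (h : Fm P a) (hne : ∀ k, Fk P a δ q m k ≠ 0)
    (hrel : Fk P a δ q m 0 - Fk P a δ q m 1 = Fk P a δ q m 2) {n : ℕ}
    (hdeg : ∀ k, (Fk P a δ q m k).natDegree = 2 * n)
    (hac : ∀ j, δ j = true ∨ 1 ≤ m j) {c : ℕ} (hc : c = ∑ j, (P j).natDegree) (k : ℕ) :
    ∃ z0 : ℕ, ∀ z, z0 ≤ z → Gz P a z → 2 * c + 2 ≤ z → ∀ C' : ℝ, (∀ y, z < y →
      ∑ s ∈ (PP z y).divisors, Gs (lamA k P a δ q m (fun _ => true)) s * gw 1 c s ≤
      C' * (Real.log y) ^ (Fintype.card J)) →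
    ∃ C2 : ℝ, ∀ X : ℕ, 1 ≤ X →
      ∑ t ∈ TH P X, ((2 : ℝ) ^ Module.finrank ℤ (EAB (hv (Fk P a δ q m 0) t)
        (hv (Fk P a δ q m 1) t)).toAffine.Point) ^ k ≤ C2 * (X : ℝ) ^ 2 := by
  classical
  obtain ⟨zs, hzs⟩ := sv2 c (Fintype.card J)
  refine ⟨zs, fun z hz g hcz C' havg => ?_⟩
  have hc1 : 1 ≤ c := by
    obtain ⟨j⟩ := ‹Nonempty J›
    rw [hc]
    have h1 : 1 ≤ (P j).natDegree := by
      have h2 := (h.irr j).natDegree_pos
      rwa [natDegree_map_eq_of_injective (RingHom.injective_int _)] at h2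
    exact h1.trans (single_le_sum (f := fun j => (P j).natDegree) (fun _ _ => Nat.zero_le _)
      (mem_univ j))
  obtain ⟨C0, hC0⟩ := lowerQ h g hc (by omega)
  obtain ⟨C, K, y0, hC, hK, hsv⟩ := hzs z hz hcz C0
  set E : ℕ := (FF P).natDegree + 1 with hE
  set M0 : ℕ := ∑ i ∈ range ((FF P).natDegree + 1), ((FF P).coeff i).natAbs with hM0
  have hE1 : (1 : ℝ) ≤ 4 ^ E := one_le_pow₀ (by norm_num)
  have hmain := coreA (Ω := ℤ × ℤ) (N := Fintype.card J) (SpA P (fun _ => true))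
    (LSA P a δ q m) (lamA k P a δ q m (fun _ => true)) hcz
    (fun p _ _ v h => lamA_eq p v h) (fun p hp hz => by
      refine (card_SpA p).trans (Nat.mul_le_mul_left _ ?_)
      rw [hc]
      exact sum_le_sum fun j _ => rho_le (P j) hp (g.lc p hp hz j))
    (fun p hp hz σ hσ => xc_A g hp hz hσ) C' havg
    (fun X => TH P X) (fun X TX => TX = TH P X) (fun X TX hTX => by rw [hTX])
    (fun X Y hXY t ht => by
      rw [mem_TH] at ht ⊢
      have h1 : (X : ℤ) ≤ Y := by exact_mod_cast hXY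
      exact ⟨⟨⟨by omega, by omega⟩, by omega, by omega⟩, ht.2⟩)
    (fun X => (X : ℝ) ^ 2) (fun X hX => one_le_pow₀ (by exact_mod_cast hX)) (hv (FF P))
    (fun X t ht => (mem_TH.1 ht).2.2) (fun t p => stt P (fun _ => true) (tp t p : ℤ) p)
    (fun X t ht p hp hz hd _ => by
      apply stt_mem hp
      rw [FF_eq_fa]
      exact (hv_iff1 _ hp (not_dvd_b g hp hz (mem_TH.1 ht).2.1 hd)).1 hd)
    (fun t => Module.finrank ℤ (EAB (hv (Fk P a δ q m 0) t)
        (hv (Fk P a δ q m 1) t)).toAffine.Point) (4 ^ (z + 2)) (4 ^ E) (by positivity)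
    hE1 (9 * C) K (y0 + M0 + 3) (by positivity) hK ?_ ?_
  · obtain ⟨C2, hC2⟩ := hmain
    exact ⟨C2, fun X hX => hC2 X hX (TH P X) rfl⟩
  · rintro X y k' hy hzy hyX hXk TX rfl t ht
    obtain ⟨⟨h1, h2⟩, h3, h4⟩ := mem_TH.1 ht
    have hb2 : (hv (FF P) t).natAbs ≤ X ^ E := by
      refine (natAbs_hv (FF P) (B := X) (by omega) (by omega)).trans ?_
      rw [← hM0, hE, pow_succ, mul_comm]
      exact Nat.mul_le_mul_left _ (by omega)
    exact rankQ h.ane g hne hrel hdeg hac h3 h4 hb2 (by omega) hXk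
  · rintro X y Y k' hy hzy hyX hXk TX rfl s v u hs hv' hu hsvu hcop T' hT' hT hst
    have hyX1 : y ≤ X := le_trans (Nat.le_self_pow (by omega) y) hyX
    set X' : ℕ := 2 * X + 1 with hX'
    have hsq : SvQ2 (QH P) z y X' c (Fintype.card J) (-(X : ℤ) - 1) (-(X : ℤ) - 1) C := by
      intro r1 r2 mm hm1 hm4 T'' hT''
      refine hsv X' y (by omega) hzy (hyX.trans (by omega)) _ _ r1 r2 mm hm1 hm4 (QH P)
        (fun p => nuH P p) ?_ ?_ ?_ (hC0 y (by omega) hzy) T'' hT''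
      · intro p _ a a' b b' h1 h2
        unfold QH
        have h3 := hv_congr (FF P) (t := (a, b)) (t' := (a', b')) h1 h2
        constructor
        · intro h4
          have := dvd_sub h4 h3
          rwa [sub_sub_cancel] at this
        · intro h4
          have := dvd_add h3 h4
          rwa [sub_add_cancel] at this
      · intro p _ _
        rfl
      · intro p hp
        obtain ⟨⟨hz, -⟩, hpp⟩ := mem_PS.1 hp
        exact nuH_le g hpp hz hc hc1
    have h1 := cntQ (a := a) g hc hcz hC hzy hsq hs hv' hu (hsvu.trans (by omega)) hcop T'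
      (fun t ht => by
        obtain ⟨h2, h3, h4⟩ := hT t ht
        obtain ⟨⟨h5, h6⟩, h7, -⟩ := mem_TH.1 (hT' ht)
        have hXc : (X' : ℤ) = 2 * X + 1 := by
          rw [hX']
          push_cast
          ring
        exact ⟨by omega, by omega, by omega, by omega, h7, h2, h3, h4⟩) hst
    have hgs := gw_nonneg (c := c) (by omega) hs
    have hgv := gw_nonneg (c := c) (by omega) hv'
    have hl : 0 < Real.log y := Real.log_pos (by exact_mod_cast (by omega : 1 < y))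
    set R : ℝ := ((1 / 2) ^ s.primeFactors.card * gw 1 c s) *
      ((c : ℝ) ^ v.primeFactors.card * (gw 1 c v / v)) *
      ((c : ℝ) ^ u.primeFactors.card / u) / (Real.log y) ^ (Fintype.card J) with hR
    have hR0 : 0 ≤ R := by
      rw [hR]
      positivity
    have h2 : (T'.card : ℝ) ≤ C * (X' : ℝ) ^ 2 * R := by
      refine h1.trans (le_of_eq ?_)
      rw [hR]
      ring
    have hXr : (1 : ℝ) ≤ X := by exact_mod_cast (by omega : 1 ≤ X)
    have h3 : (X' : ℝ) ^ 2 ≤ 9 * (X : ℝ) ^ 2 := by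
      have h4 : (X' : ℝ) ≤ 3 * X := by
        rw [hX']
        push_cast
        linarith
      calc (X' : ℝ) ^ 2 ≤ (3 * (X : ℝ)) ^ 2 := pow_le_pow_left₀ (Nat.cast_nonneg _) h4 2
        _ = _ := by ring
    have h4 : (1 : ℝ) ≤ (4 ^ E) ^ k' := one_le_pow₀ hE1
    have h5 : C * (X' : ℝ) ^ 2 ≤ 9 * C * (4 ^ E) ^ k' * (X : ℝ) ^ 2 := by
      calc C * (X' : ℝ) ^ 2 ≤ C * (9 * (X : ℝ) ^ 2) := mul_le_mul_of_nonneg_left h3 hC
        _ = 9 * C * 1 * (X : ℝ) ^ 2 := by ring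
        _ ≤ 9 * C * (4 ^ E) ^ k' * (X : ℝ) ^ 2 := by gcongr
    refine h2.trans ((mul_le_mul_of_nonneg_right h5 hR0).trans (le_of_eq ?_))
    rw [hR]
    ring

end

end Pool.Agent.L0h5.TQ
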