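import Mathlib

/-!
# Counting pairs in residue classes
-/

set_option autoImplicit false

namespace Pool.Agent.L0h5.TQ

open Finset

/-- the product of distinct primes is coprime to another prime -/
lemma cop_prod {p : ℕ} (hp : p.Prime) {T : Finset ℕ} (hT : ∀ q ∈ T, q.Prime) (h : p ∉ T) :
    Nat.Coprime p (∏ q ∈ T, q) := by
  apply Nat.Coprime.prod_right
  intro q hq
  rw [Nat.coprime_primes hp (hT q hq)]
  rintro rfl
  exact h hq

section

variable {R : ℕ → ℕ → ℕ → Prop}

open Classical in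
/-- the number of the classes, one prime -/
noncomputable def Np (R : ℕ → ℕ → ℕ → Prop) (p : ℕ) : ℕ :=
  ((range p ×ˢ range p).filter (fun x : ℕ × ℕ => R p x.1 x.2)).card

open Classical in
/-- the Chinese remainder theorem for pairs -/
lemma crt_pairs (hper : ∀ p x y, R p x y ↔ R p (x % p) (y % p)) (T : Finset ℕ)
    (hT : ∀ q ∈ T, q.Prime) :
    ((range (∏ q ∈ T, q) ×ˢ range (∏ q ∈ T, q)).filter
      (fun x : ℕ × ℕ => ∀ p ∈ T, R p x.1 x.2)).card = ∏ p ∈ T, Np R p := by
  induction T using Finset.induction_on with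
  | empty =>
    rw [prod_empty, prod_empty, filter_true_of_mem (fun x _ p hp => absurd hp (notMem_empty p))]
    rfl
  | insert p T hp ih =>
    have hpp : p.Prime := hT p (mem_insert_self _ _)
    have hTT : ∀ q ∈ T, q.Prime := fun q hq => hT q (mem_insert_of_mem hq)
    have hcop := cop_prod hpp hTT hp
    set d := ∏ q ∈ T, q with hd
    have hd0 : 0 < d := prod_pos fun q hq => (hTT q hq).pos
    have hp0 : 0 < p := hpp.pos
    rw [prod_insert hp, prod_insert hp, ← ih hTT]
    unfold Np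
    rw [← card_product]
    have hmodT : ∀ q ∈ T, ∀ x, x % d % q = x % q := fun q hq x =>
      Nat.mod_mod_of_dvd x (dvd_prod_of_mem (fun q => q) hq)
    have hRd : ∀ q ∈ T, ∀ x y, R q x y ↔ R q (x % d) (y % d) := by
      intro q hq x y
      rw [hper q x y, hper q (x % d) (y % d), hmodT q hq, hmodT q hq]
    have hex : ∀ a b : ℕ, ∃ k, k < p * d ∧ k % p = a % p ∧ k % d = b % d := by
      intro a b
      have h1 := (Nat.chineseRemainder hcop a b)
      refine ⟨(Nat.chineseRemainder hcop a b : ℕ), ?_, ?_, ?_⟩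
      · exact Nat.chineseRemainder_lt_mul hcop a b hp0.ne' hd0.ne'
      · exact (Nat.chineseRemainder hcop a b).2.1
      · exact (Nat.chineseRemainder hcop a b).2.2
    have huniq : ∀ x y : ℕ, x < p * d → y < p * d → x % p = y % p → x % d = y % d → x = y := by
      intro x y hx hy h1 h2
      have h3 : x ≡ y [MOD p * d] := (Nat.modEq_and_modEq_iff_modEq_mul hcop).1 ⟨h1, h2⟩
      have h4 : x % (p * d) = y % (p * d) := h3
      rwa [Nat.mod_eq_of_lt hx, Nat.mod_eq_of_lt hy] at h4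
    refine card_bij (fun x _ => ((x.1 % p, x.2 % p), (x.1 % d, x.2 % d))) ?_ ?_ ?_
    · intro x hx
      rw [mem_filter, mem_product, mem_range, mem_range] at hx
      rw [mem_product, mem_filter, mem_filter, mem_product, mem_product, mem_range, mem_range,
        mem_range, mem_range]
      refine ⟨⟨⟨Nat.mod_lt _ hp0, Nat.mod_lt _ hp0⟩, ?_⟩, ⟨⟨Nat.mod_lt _ hd0, Nat.mod_lt _ hd0⟩,
        fun q hq => ?_⟩⟩
      · exact (hper p x.1 x.2).1 (hx.2 p (mem_insert_self _ _))
      · exact (hRd q hq x.1 x.2).1 (hx.2 q (mem_insert_of_mem hq))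
    · intro x hx y hy hxy
      rw [mem_filter, mem_product, mem_range, mem_range] at hx hy
      simp only [Prod.mk.injEq] at hxy
      obtain ⟨⟨h1, h2⟩, h3, h4⟩ := hxy
      exact Prod.ext (huniq _ _ hx.1.1 hy.1.1 h1 h3) (huniq _ _ hx.1.2 hy.1.2 h2 h4)
    · rintro ⟨⟨a, b⟩, ⟨a', b'⟩⟩ h
      rw [mem_product, mem_filter, mem_filter, mem_product, mem_product, mem_range, mem_range,
        mem_range, mem_range] at h
      obtain ⟨⟨⟨ha, hb⟩, hab⟩, ⟨ha', hb'⟩, hab'⟩ := h
      simp only at ha hb hab ha' hb' hab'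
      obtain ⟨k, hk, hk1, hk2⟩ := hex a a'
      obtain ⟨l, hl, hl1, hl2⟩ := hex b b'
      rw [Nat.mod_eq_of_lt ha] at hk1
      rw [Nat.mod_eq_of_lt ha'] at hk2
      rw [Nat.mod_eq_of_lt hb] at hl1
      rw [Nat.mod_eq_of_lt hb'] at hl2
      refine ⟨(k, l), ?_, ?_⟩
      · rw [mem_filter, mem_product, mem_range, mem_range]
        refine ⟨⟨hk, hl⟩, fun q hq => ?_⟩
        rcases mem_insert.1 hq with rfl | hq
        · rw [hper, hk1, hl1]
          exact hab
        · rw [hRd q hq, hk2, hl2]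
          exact hab' q hq
      · simp only [hk1, hk2, hl1, hl2]

lemma count_one (L d r : ℕ) (hd : 0 < d) (hr : r < d) :
    |((((range L).filter (fun x => x % d = r)).card : ℕ) : ℝ) - (L : ℝ) / d| ≤ 1 := by
  have h1 : ((range L).filter (fun x => x % d = r)).card =
      L / d + if r % d < L % d then 1 else 0 := by
    rw [← Nat.count_modEq_card L hd r, Nat.count_eq_card_filter_range]
    congr 1
    apply filter_congr
    intro x _
    unfold Nat.ModEq
    rw [Nat.mod_eq_of_lt hr]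
  rw [h1]
  have hdr : (0 : ℝ) < d := by exact_mod_cast hd
  have h2 : (L : ℝ) = d * ((L / d : ℕ) : ℝ) + ((L % d : ℕ) : ℝ) := by
    exact_mod_cast (Nat.div_add_mod L d).symm
  have h3 : ((L % d : ℕ) : ℝ) < d := by exact_mod_cast Nat.mod_lt L hd
  have h4 : (0 : ℝ) ≤ ((L % d : ℕ) : ℝ) := Nat.cast_nonneg _
  have h5 : (L : ℝ) / d = ((L / d : ℕ) : ℝ) + ((L % d : ℕ) : ℝ) / d := by
    rw [h2]
    field_simp
  have h6 : 0 ≤ ((L % d : ℕ) : ℝ) / d := by positivity
  have h7 : ((L % d : ℕ) : ℝ) / d < 1 := by rwa [div_lt_one hdr]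
  rw [h5, abs_le]
  push_cast
  split_ifs <;> constructor <;> linarith

open Classical in
/-- the number of the pairs in a square that satisfy periodic conditions -/
lemma count_box (hper : ∀ p x y, R p x y ↔ R p (x % p) (y % p)) (T : Finset ℕ)
    (hT : ∀ q ∈ T, q.Prime) (L : ℕ) :
    |((((range L ×ˢ range L).filter (fun x : ℕ × ℕ => ∀ p ∈ T, R p x.1 x.2)).card : ℕ) : ℝ) -
      (L : ℝ) ^ 2 * ∏ p ∈ T, ((Np R p : ℝ) / (p : ℝ) ^ 2)| ≤
      ((∏ q ∈ T, q : ℕ) : ℝ) ^ 2 * (2 * L + 1) := by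
  set d := ∏ q ∈ T, q with hd
  have hd0 : 0 < d := prod_pos fun q hq => (hT q hq).pos
  have hdr : (1 : ℝ) ≤ d := by exact_mod_cast hd0
  have hRd : ∀ q ∈ T, ∀ x y, R q x y ↔ R q (x % d) (y % d) := by
    intro q hq x y
    rw [hper q x y, hper q (x % d) (y % d),
      Nat.mod_mod_of_dvd x (dvd_prod_of_mem (fun q => q) hq),
      Nat.mod_mod_of_dvd y (dvd_prod_of_mem (fun q => q) hq)]
  set A := (range d ×ˢ range d).filter (fun x : ℕ × ℕ => ∀ p ∈ T, R p x.1 x.2) with hA
  have hcA : A.card = ∏ p ∈ T, Np R p := crt_pairs hper T hT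
  have h1 : ((range L ×ˢ range L).filter (fun x : ℕ × ℕ => ∀ p ∈ T, R p x.1 x.2)).card =
      ∑ r ∈ A, ((range L).filter (fun x => x % d = r.1)).card *
        ((range L).filter (fun x => x % d = r.2)).card := by
    rw [card_eq_sum_card_fiberwise (f := fun x : ℕ × ℕ => (x.1 % d, x.2 % d)) (t := A)]
    · refine sum_congr rfl fun r hr => ?_
      rw [← card_product]
      congr 1
      ext x
      rw [mem_filter, mem_filter, mem_product, mem_product, mem_filter, mem_filter]
      rw [hA, mem_filter] at hr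
      constructor
      · rintro ⟨⟨⟨h2, h3⟩, h4⟩, h5⟩
        rw [Prod.ext_iff] at h5
        exact ⟨⟨h2, h5.1⟩, h3, h5.2⟩
      · rintro ⟨⟨h2, h3⟩, h4, h5⟩
        refine ⟨⟨⟨h2, h4⟩, fun p hp => ?_⟩, Prod.ext h3 h5⟩
        rw [hRd p hp, h3, h5]
        exact hr.2 p hp
    · intro x hx
      have hx' := mem_filter.1 (mem_coe.1 hx)
      rw [mem_coe, hA, mem_filter, mem_product, mem_range, mem_range]
      exact ⟨⟨Nat.mod_lt _ hd0, Nat.mod_lt _ hd0⟩, fun p hp => (hRd p hp _ _).1 (hx'.2 p hp)⟩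
  have h2 : (L : ℝ) ^ 2 * ∏ p ∈ T, ((Np R p : ℝ) / (p : ℝ) ^ 2) =
      ∑ _r ∈ A, ((L : ℝ) / d) * ((L : ℝ) / d) := by
    rw [sum_const, nsmul_eq_mul, hcA, prod_div_distrib, prod_pow]
    push_cast
    rw [hd]
    push_cast
    have : (∏ q ∈ T, (q : ℝ)) ≠ 0 := prod_ne_zero_iff.2 fun q hq => by
      exact_mod_cast (hT q hq).ne_zero
    field_simp
  rw [h1, h2]
  push_cast
  rw [← sum_sub_distrib]
  refine (abs_sum_le_sum_abs _ _).trans ?_
  have h3 : ∀ r ∈ A, |((((range L).filter (fun x => x % d = r.1)).card : ℕ) : ℝ) *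
      ((((range L).filter (fun x => x % d = r.2)).card : ℕ) : ℝ) -
      ((L : ℝ) / d) * ((L : ℝ) / d)| ≤ 2 * L + 1 := by
    intro r hr
    rw [hA, mem_filter, mem_product, mem_range, mem_range] at hr
    have e1 := count_one L d r.1 hd0 hr.1.1
    have e2 := count_one L d r.2 hd0 hr.1.2
    set u := ((((range L).filter (fun x => x % d = r.1)).card : ℕ) : ℝ)
    set v := ((((range L).filter (fun x => x % d = r.2)).card : ℕ) : ℝ)
    set w := (L : ℝ) / d with hw
    have hw0 : 0 ≤ w := by positivity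
    have hwL : w ≤ L := by
      rw [hw, div_le_iff₀ (by linarith)]
      have : (0 : ℝ) ≤ L := Nat.cast_nonneg _
      nlinarith
    have e3 : u * v - w * w = (u - w) * (v - w) + w * (u - w) + w * (v - w) := by ring
    rw [e3]
    refine (abs_add_three _ _ _).trans ?_
    rw [abs_mul, abs_mul, abs_mul, abs_of_nonneg hw0]
    have e4 : |u - w| * |v - w| ≤ 1 * 1 :=
      mul_le_mul e1 e2 (abs_nonneg _) zero_le_one
    have e5 : w * |u - w| ≤ w * 1 := mul_le_mul_of_nonneg_left e1 hw0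
    have e6 : w * |v - w| ≤ w * 1 := mul_le_mul_of_nonneg_left e2 hw0
    linarith
  refine (sum_le_sum h3).trans ?_
  rw [sum_const, nsmul_eq_mul]
  apply mul_le_mul_of_nonneg_right _ (by positivity)
  have h4 : A.card ≤ d * d := by
    refine (card_filter_le _ _).trans (le_of_eq ?_)
    rw [card_product, card_range]
  have h5 : (A.card : ℝ) ≤ ((d * d : ℕ) : ℝ) := by exact_mod_cast h4
  push_cast at h5
  rw [sq]
  exact h5

end

end Pool.Agent.L0h5.TQ
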