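import Pool.Agent.L0h5.TH.FinZ2

/-!
# Local pictures, abstract form
-/

set_option autoImplicit false
set_option linter.unusedSectionVars false

namespace Pool.Agent.L0h5.TQ

open Finset Polynomial Pool.Agent.W262.RK Pool.Agent.L0h5.TF Pool.Agent.L0h5.MR
  Pool.Agent.L0h5.TH

lemma jac_of_sg {p : ℕ} (hp : p.Prime) {x x' : ℤ} (hx : ¬ (p : ℤ) ∣ x) (hx' : ¬ (p : ℤ) ∣ x')
    (h : sg0 p x = sg0 p x') : jacobiSym (x' * x) p = 1 := by
  rw [jacobiSym.mul_left]
  unfold sg0 at h
  rcases jac_unit hp hx with h1 | h1 <;> rcases jac_unit hp hx' with h2 | h2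
  · rw [h1, h2]
    norm_num
  · rw [h1, h2] at h
    exact absurd h (by decide)
  · rw [h1, h2] at h
    exact absurd h (by decide)
  · rw [h1, h2]
    norm_num

section

variable {J : Type} [Fintype J] [DecidableEq J] {P : J → ℤ[X]} {a : Fin 3 → ℤ} {δ : J → Bool}
  {q : J → Fin 3} {m : J → ℕ} {z : ℕ}

/-- the local hypotheses hold -/
lemma locE_abs (g : Gz P a z) {p : ℕ} (hp : p.Prime) (hz : z < p) {j : J}
    (hact : δ j = true ∨ 1 ≤ m j) {r : ℕ} (h : (p : ℤ) ∣ (P j).eval (r : ℤ)) {s : Bool}
    {A : Fin 3 → ℤ} (hA : A 0 - A 1 = A 2) {α : Fin 3 → ℤ} (hα : ∀ k, ¬ (p : ℤ) ∣ α k)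
    (hF : ∀ k, A k = (p : ℤ) ^ mu δ q m k j * α k)
    (hs : ∀ k, sg0 p (α k) = xor (decide (Odd (mu δ q m k j)) && s)
      (sg0 p ((cof P a δ q m k j).eval (r : ℤ)))) :
    LocE (clsG δ q j) (evG m j) (kapG P a δ q m j r) s p (A 0) (A 1) := by
  have hp0 : (p : ℤ) ≠ 0 := by exact_mod_cast hp.ne_zero
  have hur := fun k => cof_unit (δ := δ) (q := q) (m := m) g hp hz h k
  unfold LocE clsG
  by_cases hδ : δ j = true
  · -- additive
    rw [if_pos hδ, if_pos rfl]
    have hmu : ∀ k, mu δ q m k j = 1 + if q j = k then m j else 0 := by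
      intro k
      unfold mu
      rw [if_pos hδ]
    have hodd : ∀ k, decide (Odd (mu δ q m k j)) = !(decide (q j = k) && decide (Odd (m j))) := by
      intro k
      rw [hmu k, dodd]
      have h1 : decide (Odd 1) = true := by decide
      rw [h1]
      by_cases hk : q j = k
      · rw [if_pos hk, decide_eq_true hk]
        generalize decide (Odd (m j)) = o
        revert o
        decide
      · rw [if_neg hk, decide_eq_false hk]
        simp
    refine ⟨q j, m j, α 0, α 1, α 2, hα 0, hα 1, hα 2, ?_, ?_, ?_, ?_, ?_, ?_⟩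
    · rw [← hmu 0]
      exact hF 0
    · rw [← hmu 1]
      exact hF 1
    · rw [hA, ← hmu 2]
      exact hF 2
    · rw [hs 0, hs 1, hodd, hodd]
      unfold kapG kapQ
      rw [if_pos hδ, eval_mul]
      by_cases hq : q j = 0
      · by_cases ho : Odd (m j)
        · rw [if_pos ⟨hq, ho⟩, if_pos rfl, sg0_mulp hp (hur 0) (hur 1), hq,
            decide_eq_true ho]
          generalize s = s0
          generalize sg0 p ((cof P a δ q m 0 j).eval (r : ℤ)) = s1
          generalize sg0 p ((cof P a δ q m 1 j).eval (r : ℤ)) = s2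
          revert s0 s1 s2
          decide
        · rw [if_neg (fun h' => ho h'.2), eval_one, mul_one, hq, decide_eq_false ho]
          generalize s = s0
          generalize sg0 p ((cof P a δ q m 0 j).eval (r : ℤ)) = s1
          generalize sg0 p ((cof P a δ q m 1 j).eval (r : ℤ)) = s2
          revert s0 s1 s2
          decide
      · rw [if_neg (fun h' => hq h'.1), eval_one, mul_one, decide_eq_false hq]
        generalize s = s0
        generalize sg0 p ((cof P a δ q m 0 j).eval (r : ℤ)) = s1
        generalize sg0 p ((cof P a δ q m 1 j).eval (r : ℤ)) = s2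
        generalize decide (q j = 1) = s3
        generalize decide (Odd (m j)) = s5
        revert s0 s1 s2 s3 s5
        decide
    · rw [hs 0, hs 1, hodd, hodd]
      unfold kapG kapQ
      rw [if_pos hδ, eval_mul]
      by_cases hq : q j = 1
      · by_cases ho : Odd (m j)
        · rw [if_pos ⟨hq, ho⟩, if_neg (by decide), if_pos rfl, sg0_mulp hp (hur 1) (hur 0), hq, decide_eq_true ho]
          generalize s = s0
          generalize sg0 p ((cof P a δ q m 0 j).eval (r : ℤ)) = s1
          generalize sg0 p ((cof P a δ q m 1 j).eval (r : ℤ)) = s2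
          revert s0 s1 s2
          decide
        · rw [if_neg (fun h' => ho h'.2), eval_one, mul_one, hq, decide_eq_false ho]
          generalize s = s0
          generalize sg0 p ((cof P a δ q m 0 j).eval (r : ℤ)) = s1
          generalize sg0 p ((cof P a δ q m 1 j).eval (r : ℤ)) = s2
          revert s0 s1 s2
          decide
      · rw [if_neg (fun h' => hq h'.1), eval_one, mul_one, decide_eq_false hq]
        generalize s = s0
        generalize sg0 p ((cof P a δ q m 0 j).eval (r : ℤ)) = s1
        generalize sg0 p ((cof P a δ q m 1 j).eval (r : ℤ)) = s2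
        generalize decide (q j = 0) = s3
        generalize decide (Odd (m j)) = s5
        revert s0 s1 s2 s3 s5
        decide
    · rw [hs 0, hs 2, hodd, hodd]
      unfold kapG kapQ
      rw [if_pos hδ, eval_mul]
      by_cases hq : q j = 2
      · by_cases ho : Odd (m j)
        · rw [if_pos ⟨hq, ho⟩, if_neg (by decide), if_neg (by decide), eval_neg,
            sg0_mulp hp (hur 2) (by rw [dvd_neg]; exact hur 0), sg0_negp hp (hur 0), hq, decide_eq_true ho]
          generalize s = s0
          generalize sg0 p (-1) = s3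
          generalize sg0 p ((cof P a δ q m 0 j).eval (r : ℤ)) = s1
          generalize sg0 p ((cof P a δ q m 2 j).eval (r : ℤ)) = s2
          revert s0 s1 s2 s3
          decide
        · rw [if_neg (fun h' => ho h'.2), eval_one, mul_one, hq, decide_eq_false ho]
          generalize s = s0
          generalize sg0 p (-1) = s3
          generalize sg0 p ((cof P a δ q m 0 j).eval (r : ℤ)) = s1
          generalize sg0 p ((cof P a δ q m 2 j).eval (r : ℤ)) = s2
          revert s0 s1 s2 s3
          decide
      · rw [if_neg (fun h' => hq h'.1), eval_one, mul_one, decide_eq_false hq]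
        generalize s = s0
        generalize sg0 p (-1) = s4
        generalize sg0 p ((cof P a δ q m 0 j).eval (r : ℤ)) = s1
        generalize sg0 p ((cof P a δ q m 2 j).eval (r : ℤ)) = s2
        generalize decide (q j = 0) = s3
        generalize decide (Odd (m j)) = s5
        revert s0 s1 s2 s3 s4 s5
        decide
  · -- multiplicative
    have hm : 1 ≤ m j := hact.resolve_left hδ
    rw [if_neg hδ]
    have h3 : (q j).castSucc ≠ 3 := by
      intro h'
      have := congrArg Fin.val h'
      simp at this
      have := (q j).isLt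
      omega
    rw [if_neg h3]
    have hmu1 : mu δ q m (q j) j = m j := by
      unfold mu
      rw [if_neg hδ, if_pos rfl, zero_add]
    have hmu0 : ∀ k, q j ≠ k → mu δ q m k j = 0 := by
      intro k hk
      unfold mu
      rw [if_neg hδ, if_neg hk]
    have hdvd : (p : ℤ) ∣ A (q j) := by
      rw [hF (q j), hmu1]
      exact (dvd_pow_self _ (by omega)).mul_right _
    have hval : padicValInt p (A (q j)) = m j := by
      have : Fact p.Prime := ⟨hp⟩
      rw [hF (q j), hmu1]
      have hu0 : α (q j) ≠ 0 := by
        intro h'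
        exact hα (q j) (by rw [h']; exact dvd_zero _)
      rw [padicValInt.mul (pow_ne_zero _ hp0) hu0, padicValInt.eq_zero_of_not_dvd (hα (q j)),
        add_zero]
      have h' : ((p : ℤ) ^ m j) = ((p ^ m j : ℕ) : ℤ) := by push_cast; rfl
      rw [h', padicValInt.of_nat, padicValNat.prime_pow]
    have hAα : ∀ k, q j ≠ k → A k = α k := by
      intro k hk
      rw [hF k, hmu0 k hk, pow_zero, one_mul]
    have hunit : ∀ k, q j ≠ k → ¬ (p : ℤ) ∣ A k := by
      intro k hk
      rw [hAα k hk]
      exact hα k
    have hcofF : ∀ k, q j ≠ k → (Fk P a δ q m k).eval (r : ℤ) =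
        (cof P a δ q m k j).eval (r : ℤ) := by
      intro k hk
      rw [Fk_eq j, hmu0 k hk, pow_zero, one_mul]
    have hjac : ∀ k, q j ≠ k → jacobiSym ((Fk P a δ q m k).eval (r : ℤ) * A k) p = 1 := by
      intro k hk
      rw [hcofF k hk]
      refine jac_of_sg hp (hunit k hk) (hur k) ?_
      rw [hAα k hk, hs k, hmu0 k hk]
      have h0 : decide (Odd 0) = false := by decide
      rw [h0]
      rw [Bool.false_and, Bool.false_xor]
    unfold evG kapG kapQ
    rw [if_neg hδ]
    have h4 : q j = 0 ∨ q j = 1 ∨ q j = 2 := by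
      generalize q j = w
      revert w
      decide
    rcases h4 with h4 | h4 | h4
    · rw [h4] at hdvd hval hunit hjac ⊢
      rw [if_pos (by rfl), if_pos rfl]
      refine ⟨hdvd, hunit 1 (by decide), ?_, by rw [hval]⟩
      rw [eval_neg, neg_mul_neg]
      exact hjac 1 (by decide)
    · rw [h4] at hdvd hval hunit hjac ⊢
      rw [if_neg (by decide), if_pos (by rfl), if_neg (by decide), if_pos rfl]
      refine ⟨hdvd, hunit 0 (by decide), ?_, by rw [hval]⟩
      rw [eval_neg, neg_mul_neg]
      exact hjac 0 (by decide)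
    · rw [h4] at hdvd hval hunit hjac ⊢
      rw [if_neg (by decide), if_neg (by decide), if_neg (by decide), if_neg (by decide), hA]
      refine ⟨hdvd, hunit 0 (by decide), ?_, by rw [hval]⟩
      exact hjac 0 (by decide)

end

end Pool.Agent.L0h5.TQ
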