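import Pool.Agent.L0h5.TQ.Hom

/-!
# Pairs of integers: local pictures and the rank
-/

set_option autoImplicit false
set_option linter.unusedSectionVars false

namespace Pool.Agent.L0h5.TQ

open Finset Polynomial Pool.Agent.W262.RK Pool.Agent.L0h5.TF Pool.Agent.L0h5.MR
  Pool.Agent.L0h5.TH

lemma hv_iff (Q : ℤ[X]) {p : ℕ} (hp : p.Prime) {t : ℤ × ℤ} (hb : ¬ (p : ℤ) ∣ t.2) (i : ℕ)
    (hi : i ≤ 2) : (p : ℤ) ^ i ∣ hv Q t ↔ (p : ℤ) ^ i ∣ Q.eval (tp t p : ℤ) := by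
  have h1 := hv_mod Q (tp_spec hp hb).2
  have h2 : (p : ℤ) ^ i ∣ hv Q t - t.2 ^ Q.natDegree * Q.eval (tp t p : ℤ) :=
    (pow_dvd_pow _ hi).trans h1
  have hco : IsCoprime ((p : ℤ) ^ i) (t.2 ^ Q.natDegree) :=
    (((Prime.coprime_iff_not_dvd (Nat.prime_iff_prime_int.1 hp)).2 hb).pow_left).pow_right
  constructor
  · intro h3
    have h4 : (p : ℤ) ^ i ∣ t.2 ^ Q.natDegree * Q.eval (tp t p : ℤ) := by
      have := dvd_sub h3 h2
      rwa [sub_sub_cancel] at this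
    exact hco.dvd_of_dvd_mul_left h4
  · intro h3
    have := dvd_add h2 (h3.mul_left (t.2 ^ Q.natDegree))
    rwa [sub_add_cancel] at this

lemma hv_iff1 (Q : ℤ[X]) {p : ℕ} (hp : p.Prime) {t : ℤ × ℤ} (hb : ¬ (p : ℤ) ∣ t.2) :
    (p : ℤ) ∣ hv Q t ↔ (p : ℤ) ∣ Q.eval (tp t p : ℤ) := by
  have := hv_iff Q hp hb 1 (by norm_num)
  rwa [pow_one] at this

section

variable {J : Type} [Fintype J] [DecidableEq J] {P : J → ℤ[X]} {a : Fin 3 → ℤ} {δ : J → Bool}
  {q : J → Fin 3} {m : J → ℕ} {z : ℕ}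

lemma FF_eq_fa (t : ℤ) : fa P (fun _ => true) t = (FF P).eval t := by
  unfold fa
  rw [eval_FF]
  congr 1
  apply filter_true_of_mem
  intro _ _
  rfl

lemma hv_FF (t : ℤ × ℤ) : hv (FF P) t = ∏ j, hv (P j) t := by
  unfold FF
  exact hv_prod _ _ _

lemma hv_Fk (k : Fin 3) (t : ℤ × ℤ) :
    hv (Fk P a δ q m k) t = a k * ∏ l, hv (P l) t ^ mu δ q m k l := by
  unfold Fk
  rw [hv_mul, hv_C, hv_prod]
  congr 1
  exact prod_congr rfl fun l _ => hv_pow _ _ _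

lemma Fk_mul (j : J) (k : Fin 3) :
    Fk P a δ q m k = P j ^ mu δ q m k j * cof P a δ q m k j := by
  unfold Fk cof
  rw [← mul_prod_erase univ (fun l => P l ^ mu δ q m k l) (mem_univ j)]
  ring

lemma not_dvd_b (g : Gz P a z) {p : ℕ} (hp : p.Prime) (hz : z < p) {t : ℤ × ℤ}
    (hc : IsCoprime t.1 t.2) (h : (p : ℤ) ∣ hv (FF P) t) : ¬ (p : ℤ) ∣ t.2 := by
  intro hb
  have hpi := Nat.prime_iff_prime_int.1 hp
  have h1 := hv_lead (FF P) (a := t.1) (b := t.2) hb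
  have h2 : (p : ℤ) ∣ (FF P).leadingCoeff * t.1 ^ (FF P).natDegree := by
    have := dvd_sub h h1
    rwa [sub_sub_cancel] at this
  rcases hpi.dvd_or_dvd h2 with h3 | h3
  · unfold FF at h3
    rw [leadingCoeff_prod, hpi.dvd_finsetProd_iff] at h3
    obtain ⟨j, -, hj⟩ := h3
    exact g.lc p hp hz j hj
  · have h4 := hpi.dvd_of_dvd_pow h3
    exact hpi.not_isUnit (hc.isUnit_of_dvd' h4 hb)

/-- the local hypotheses hold -/
lemma locE_hom (g : Gz P a z) (ha : ∀ k, Fk P a δ q m k ≠ 0)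
    (hrel : Fk P a δ q m 0 - Fk P a δ q m 1 = Fk P a δ q m 2) {n : ℕ}
    (hdeg : ∀ k, (Fk P a δ q m k).natDegree = 2 * n) {p : ℕ}
    (hp : p.Prime) (hz : z < p) {j : J} (hact : δ j = true ∨ 1 ≤ m j) {t : ℤ × ℤ}
    (hb : ¬ (p : ℤ) ∣ t.2) (h : (p : ℤ) ∣ (P j).eval (tp t p : ℤ))
    (h2 : ¬ (p : ℤ) ^ 2 ∣ (P j).eval (tp t p : ℤ)) :
    LocE (clsG δ q j) (evG m j) (kapG P a δ q m j (rs (tp t p) p))
      (sg0 p ((P j).eval (tp t p : ℤ) / p)) p
      (hv (Fk P a δ q m 0) t) (hv (Fk P a δ q m 1) t) := by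
  have hp0 : (p : ℤ) ≠ 0 := by exact_mod_cast hp.ne_zero
  have hr := rs_dvd (tp t p : ℤ) hp.ne_zero
  have hroot : (p : ℤ) ∣ (P j).eval ((rs (tp t p) p : ℕ) : ℤ) := (dvd_eval_congr _ hr).1 h
  obtain ⟨n0, hn0⟩ := (hv_iff1 (P j) hp hb).2 h
  obtain ⟨n1, hn1⟩ := h
  have h : (p : ℤ) ∣ (P j).eval (tp t p : ℤ) := ⟨n1, hn1⟩
  have hdiv : (P j).eval (tp t p : ℤ) / p = n1 := by rw [hn1, Int.mul_ediv_cancel_left _ hp0]
  rw [hdiv]
  have hn1u : ¬ (p : ℤ) ∣ n1 := by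
    rintro ⟨w, rfl⟩
    apply h2
    rw [hn1]
    exact ⟨w, by ring⟩
  have hn0u : ¬ (p : ℤ) ∣ n0 := by
    rintro ⟨w, rfl⟩
    apply h2
    rw [← hv_iff (P j) hp hb 2 le_rfl, hn0]
    exact ⟨w, by ring⟩
  -- the relation of the units
  have hcon : (p : ℤ) ∣ n0 - t.2 ^ (P j).natDegree * n1 := by
    have h3 := hv_mod (P j) (tp_spec hp hb).2
    have e : hv (P j) (t.1, t.2) - t.2 ^ (P j).natDegree * (P j).eval (tp t p : ℤ) =
        p * (n0 - t.2 ^ (P j).natDegree * n1) := by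
      have e1 : hv (P j) (t.1, t.2) = p * n0 := hn0
      rw [e1, hn1]
      ring
    rw [e, pow_two] at h3
    exact Int.dvd_of_mul_dvd_mul_left hp0 h3
  have hcu := fun k => cof_unit (δ := δ) (q := q) (m := m) g hp hz h k
  have hhu : ∀ k, ¬ (p : ℤ) ∣ hv (cof P a δ q m k j) t := fun k hd =>
    hcu k ((hv_iff1 _ hp hb).1 hd)
  have hsn : sg0 p n0 = xor (decide (Odd (P j).natDegree) && sg0 p t.2) (sg0 p n1) := by
    rw [sg0_congrp hcon, sg0_mulp hp (unit_pow hp hb _) hn1u, sg0_powp hp hb]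
  have hsc : ∀ k, sg0 p (hv (cof P a δ q m k j) t) =
      xor (decide (Odd (cof P a δ q m k j).natDegree) && sg0 p t.2)
        (sg0 p ((cof P a δ q m k j).eval ((rs (tp t p) p : ℕ) : ℤ))) := by
    intro k
    have h3 : (p : ℤ) ∣ hv (cof P a δ q m k j) t -
        t.2 ^ (cof P a δ q m k j).natDegree * (cof P a δ q m k j).eval (tp t p : ℤ) :=
      (dvd_pow_self (p : ℤ) two_ne_zero).trans (hv_mod _ (tp_spec hp hb).2)
    rw [sg0_congrp h3, sg0_mulp hp (unit_pow hp hb _) (hcu k), sg0_powp hp hb,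
      sg0_congrp (dvd_eval_sub (cof P a δ q m k j) hr)]
  have hD : ∀ k, mu δ q m k j * (P j).natDegree + (cof P a δ q m k j).natDegree = 2 * n := by
    intro k
    have h3 := hdeg k
    have h4 := ha k
    rw [Fk_mul j k] at h3 h4
    rw [natDegree_mul (left_ne_zero_of_mul h4) (right_ne_zero_of_mul h4), natDegree_pow] at h3
    exact h3
  refine locE_abs g hp hz hact hroot (A := fun k => hv (Fk P a δ q m k) t)
    (hv_sub hrel (hdeg 0) (hdeg 1) (hdeg 2) t)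
    (α := fun k => n0 ^ mu δ q m k j * hv (cof P a δ q m k j) t)
    (fun k => unit_mul hp (unit_pow hp hn0u _) (hhu k)) (fun k => ?_) (fun k => ?_)
  · show hv (Fk P a δ q m k) t = _
    rw [Fk_mul j k, hv_mul, hv_pow, hn0, mul_pow]
    ring
  · show sg0 p (n0 ^ mu δ q m k j * hv (cof P a δ q m k j) t) = _
    rw [sg0_mulp hp (unit_pow hp hn0u _) (hhu k), sg0_powp hp hn0u, hsn, hsc k]
    have h3 : decide (Odd (cof P a δ q m k j).natDegree) =
        (decide (Odd (mu δ q m k j)) && decide (Odd (P j).natDegree)) := by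
      have h4 := hD k
      have h5 : Odd (cof P a δ q m k j).natDegree ↔
          Odd (mu δ q m k j) ∧ Odd (P j).natDegree := by
        rw [← Nat.odd_mul]
        constructor
        · rintro ⟨c, hc⟩
          rw [Nat.odd_iff]
          omega
        · rintro ⟨c, hc⟩
          rw [Nat.odd_iff]
          omega
      by_cases h6 : Odd (cof P a δ q m k j).natDegree
      · obtain ⟨h7, h8⟩ := h5.1 h6
        rw [decide_eq_true h6, decide_eq_true h7, decide_eq_true h8]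
        rfl
      · rw [decide_eq_false h6]
        by_cases h7 : Odd (mu δ q m k j)
        · have h8 : ¬ Odd (P j).natDegree := fun h8 => h6 (h5.2 ⟨h7, h8⟩)
          rw [decide_eq_false h8, Bool.and_false]
        · rw [decide_eq_false h7, Bool.false_and]
    rw [h3]
    generalize decide (Odd (mu δ q m k j)) = o1
    generalize decide (Odd (P j).natDegree) = o2
    generalize sg0 p t.2 = s1
    generalize sg0 p n1 = s2
    generalize sg0 p ((cof P a δ q m k j).eval ((rs (tp t p) p : ℕ) : ℤ)) = s3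
    revert o1 o2 s1 s2 s3
    decide

/-- the rank is bounded by the local count -/
lemma rankQ [Nonempty J] (ha : ∀ k, a k ≠ 0) (g : Gz P a z) (hne : ∀ k, Fk P a δ q m k ≠ 0)
    (hrel : Fk P a δ q m 0 - Fk P a δ q m 1 = Fk P a δ q m 2) {n : ℕ}
    (hdeg : ∀ k, (Fk P a δ q m k).natDegree = 2 * n)
    (hac : ∀ j, δ j = true ∨ 1 ≤ m j) {t : ℤ × ℤ} (hc : IsCoprime t.1 t.2)
    (ht : hv (FF P) t ≠ 0)
    {y X E k' : ℕ} (hb : (hv (FF P) t).natAbs ≤ X ^ E) (hE : 1 ≤ E)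
    (hk : X < (y + 1) ^ k') :
    (2 : ℝ) ^ Module.finrank ℤ (EAB (hv (Fk P a δ q m 0) t)
        (hv (Fk P a δ q m 1) t)).toAffine.Point ≤
      4 ^ (z + 2) * (4 ^ E) ^ k' * 4 ^ (s2 z y (hv (FF P) t)).primeFactors.card *
        (NL (s1 z y (hv (FF P) t))
          (fun p => LSA P a δ q m (stt P (fun _ => true) (tp t p : ℤ) p) p) : ℝ) := by
  have hAB := hv_sub hrel (hdeg 0) (hdeg 1) (hdeg 2) t
  have hPne : ∀ j, hv (P j) t ≠ 0 := by
    rw [hv_FF, prod_ne_zero_iff] at ht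
    exact fun j => ht j (mem_univ j)
  have hFne : ∀ k, hv (Fk P a δ q m k) t ≠ 0 := by
    intro k
    rw [hv_Fk]
    exact mul_ne_zero (ha k) (prod_ne_zero_iff.2 fun l _ => pow_ne_zero _ (hPne l))
  have hneq : hv (Fk P a δ q m 0) t ≠ hv (Fk P a δ q m 1) t := by
    intro h
    apply hFne 2
    rw [← hAB, h, sub_self]
  have hdvd : ∀ {p : ℕ}, p.Prime → z < p → ∀ {k}, (p : ℤ) ∣ hv (Fk P a δ q m k) t →
      (p : ℤ) ∣ hv (FF P) t := by
    intro p hp hz k h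
    rw [hv_Fk] at h
    rcases (Nat.prime_iff_prime_int.1 hp).dvd_or_dvd h with h1 | h1
    · exact absurd h1 (g.ak p hp hz k)
    · obtain ⟨l, -, hl⟩ := ((Nat.prime_iff_prime_int.1 hp).dvd_finsetProd_iff _).1 h1
      rw [hv_FF]
      exact ((Nat.prime_iff_prime_int.1 hp).dvd_of_dvd_pow hl).trans
        (dvd_prod_of_mem (fun l => hv (P l) t) (mem_univ l))
  have hst : ∀ {p : ℕ}, p.Prime → z < p → (p : ℤ) ∣ hv (FF P) t →
      (p : ℤ) ∣ fa P (fun _ => true) (tp t p : ℤ) := by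
    intro p hp hz h
    rw [FF_eq_fa]
    exact (hv_iff1 _ hp (not_dvd_b g hp hz hc h)).1 h
  refine rankA g.two (hFne 0) (hFne 1) hneq ht hb hE hk ?_ (fun _ _ _ _ h => h) _ ?_ ?_
  · intro p hp hz h
    rw [hAB] at h
    rcases (Nat.prime_iff_prime_int.1 hp).dvd_or_dvd h with h1 | h1
    · rcases (Nat.prime_iff_prime_int.1 hp).dvd_or_dvd h1 with h2 | h2
      · exact hdvd hp hz h2
      · exact hdvd hp hz h2
    · exact hdvd hp hz h1
  · intro p hp hz h _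
    exact xc_A g hp hz (stt_mem hp (hst hp hz h))
  · intro p hpf hz h h2 x x' hx' hcurve e1 e2 he1 he2 hs1 hs2
    have hp : p.Prime := hpf.out
    have hbp := not_dvd_b g hp hz hc h
    have hfa := hst hp hz h
    obtain ⟨h3, h4⟩ := jt_spec ((dvd_fa hp).1 hfa)
    have h2' : ¬ (p : ℤ) ^ 2 ∣ fa P (fun _ => true) (tp t p : ℤ) := by
      rw [FF_eq_fa, ← hv_iff _ hp hbp 2 le_rfl]
      exact h2
    have h5 : ¬ (p : ℤ) ^ 2 ∣ (P (jt P (fun _ => true) (tp t p : ℤ) p)).eval (tp t p : ℤ) :=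
      fun h' => h2' ((sq_dvd_fa g hp hz h3 h4).2 h')
    have hm := mem_SpA.1 (stt_mem (ac := fun _ => true) hp hfa)
    refine locE (by
      have := g.two
      omega) _ _ _ _ (fun k => kapG_unit g hp hz hm.2.2 k) (hFne 0)
      (hFne 1) hneq ?_ x x' hx' hcurve e1 e2 he1 he2 hs1 hs2
    exact locE_hom g hne hrel hdeg hp hz (hac _) hbp h4 h5

end

end Pool.Agent.L0h5.TQ
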