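import Pool.Agent.L0h5.TQ.Q1
import Pool.Agent.L0h5.TQ.CrtQ

/-!
# Pairs of integers: the count
-/

set_option autoImplicit false
set_option linter.unusedSectionVars false

namespace Pool.Agent.L0h5.TQ

open Finset Polynomial Pool.Agent.W262.RK Pool.Agent.L0h5.TF Pool.Agent.L0h5.MR
  Pool.Agent.L0h5.TH

section

variable {J : Type} [Fintype J] [DecidableEq J] {P : J → ℤ[X]} {a : Fin 3 → ℤ} {δ : J → Bool}
  {q : J → Fin 3} {m : J → ℕ} {z : ℕ}

/-- the forbidden classes -/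
def QH (P : J → ℤ[X]) (p : ℕ) (x y : ℤ) : Prop := (p : ℤ) ∣ hv (FF P) (x, y)

/-- the pairs with quotient in `A` -/
def Wq (A : Finset ℕ) (n : ℕ) : Finset (ℕ × ℕ) :=
  (A ×ˢ range n).image (fun x => (x.2 * x.1 % n, x.2))

lemma card_Wq (A : Finset ℕ) (n : ℕ) : (Wq A n).card ≤ A.card * n := by
  unfold Wq
  refine card_image_le.trans (le_of_eq ?_)
  rw [card_product, card_range]

/-- membership in the set of classes -/
lemma mem_Wq {A : Finset ℕ} {n : ℕ} (hn : n ≠ 0) {t : ℤ × ℤ} {x : ℕ} (hx : x ∈ A)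
    (h : (n : ℤ) ∣ t.2 * x - t.1) : (rs t.1 n, rs t.2 n) ∈ Wq A n := by
  unfold Wq
  rw [mem_image]
  refine ⟨(x, rs t.2 n), ?_, ?_⟩
  · rw [mem_product, mem_range]
    exact ⟨hx, rs_lt _ hn⟩
  · simp only [Prod.mk.injEq, and_true]
    have h1 := rs_dvd t.1 hn
    have h2 := rs_dvd t.2 hn
    have h3 : (n : ℤ) ∣ (rs t.1 n : ℤ) - ((rs t.2 n * x : ℕ) : ℤ) := by
      push_cast
      have e : (rs t.1 n : ℤ) - (rs t.2 n : ℤ) * x =
          (t.2 - rs t.2 n) * x - (t.1 - rs t.1 n) - (t.2 * x - t.1) := by ring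
      rw [e]
      exact dvd_sub (dvd_sub (h2.mul_right _) h1) h
    have h4 : rs t.2 n * x ≡ rs t.1 n [MOD n] := (Nat.modEq_iff_dvd).2 h3
    have h5 : rs t.2 n * x % n = rs t.1 n % n := h4
    rw [h5, Nat.mod_eq_of_lt (rs_lt _ hn)]

lemma cntQ [Nonempty J] (g : Gz P a z) {c : ℕ} (hc : c = ∑ j, (P j).natDegree)
    (hcz : 2 * c + 2 ≤ z) {y X N : ℕ} {x1 x2 : ℤ} {C : ℝ} (hC : 0 ≤ C) (hzy : z < y)
    (hsv : SvQ2 (QH P) z y X c N x1 x2 C) {Y s v u : ℕ}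
    (hs : s ∈ (PP z y).divisors) (hv' : v ∈ (PP z y).divisors) (hu : u ∈ (PP y Y).divisors)
    (hsvu : (s * v * u) ^ 8 ≤ X) (hcop : s.Coprime v) (T : Finset (ℤ × ℤ))
    (hT : ∀ t ∈ T, x1 < t.1 ∧ t.1 ≤ x1 + X ∧ x2 < t.2 ∧ t.2 ≤ x2 + X ∧ IsCoprime t.1 t.2 ∧
      s1 z y (hv (FF P) t) = s ∧ s2 z y (hv (FF P) t) = v ∧ (u : ℤ) ∣ hv (FF P) t)
    (hst : ∀ t ∈ T, ∀ t' ∈ T, ∀ p ∈ s.primeFactors, stt P (fun _ => true) (tp t p : ℤ) p =
      stt P (fun _ => true) (tp t' p : ℤ) p) :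
    (T.card : ℝ) ≤ C * (X : ℝ) ^ 2 * ((1 / 2) ^ s.primeFactors.card * gw 1 c s) *
      ((c : ℝ) ^ v.primeFactors.card * (gw 1 c v / v)) *
      ((c : ℝ) ^ u.primeFactors.card / u) / (Real.log y) ^ N := by
  have hgs := gw_nonneg (c := c) (by omega) hs
  have hgv := gw_nonneg (c := c) (by omega) hv'
  have hlog : 0 ≤ (Real.log y) ^ N := pow_nonneg (Real.log_natCast_nonneg y) _
  rcases T.eq_empty_or_nonempty with hE | ⟨t0, ht0⟩
  · rw [hE, card_empty, Nat.cast_zero]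
    positivity
  have hsz : ∀ p ∈ s.primeFactors, (z < p ∧ p ≤ y) ∧ p.Prime := fun p hp =>
    ⟨dv_prime hs (Nat.prime_of_mem_primeFactors hp) (Nat.dvd_of_mem_primeFactors hp),
      Nat.prime_of_mem_primeFactors hp⟩
  have hvz : ∀ p ∈ v.primeFactors, (z < p ∧ p ≤ y) ∧ p.Prime := fun p hp =>
    ⟨dv_prime hv' (Nat.prime_of_mem_primeFactors hp) (Nat.dvd_of_mem_primeFactors hp),
      Nat.prime_of_mem_primeFactors hp⟩
  have huz : ∀ p ∈ u.primeFactors, (y < p ∧ p ≤ Y) ∧ p.Prime := fun p hp =>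
    ⟨dv_prime hu (Nat.prime_of_mem_primeFactors hp) (Nat.dvd_of_mem_primeFactors hp),
      Nat.prime_of_mem_primeFactors hp⟩
  have evs : ∀ p ∈ v.primeFactors, p ∉ s.primeFactors := fun p hp h =>
    (disjoint_left.1 hcop.disjoint_primeFactors h) hp
  have eus : ∀ p ∈ u.primeFactors, p ∉ s.primeFactors := fun p hp h => by
    have h1 := (huz p hp).1.1
    have h2 := (hsz p h).1.2
    omega
  have euv : ∀ p ∈ u.primeFactors, p ∉ v.primeFactors := fun p hp h => by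
    have h1 := (huz p hp).1.1
    have h2 := (hvz p h).1.2
    omega
  -- the residues at the primes that divide `s`
  have hs1 : ∀ t ∈ T, ∀ p ∈ s.primeFactors, ¬ (p : ℤ) ∣ t.2 ∧
      (p : ℤ) ∣ fa P (fun _ => true) (tp t p : ℤ) ∧
      ¬ (p : ℤ) ^ 2 ∣ fa P (fun _ => true) (tp t p : ℤ) := by
    intro t ht p hp
    obtain ⟨-, -, -, -, hco, h3, -, -⟩ := hT t ht
    have h6 : p ∣ s1 z y (hv (FF P) t) := by
      rw [h3]
      exact Nat.dvd_of_mem_primeFactors hp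
    obtain ⟨⟨hz, -⟩, hpp⟩ := hsz p hp
    obtain ⟨-, h7, h8⟩ := (dvd_s1 hpp).1 h6
    have hb := not_dvd_b g hpp hz hco h7
    rw [FF_eq_fa]
    exact ⟨hb, (hv_iff1 _ hpp hb).1 h7, fun h9 => h8 ((hv_iff _ hpp hb 2 le_rfl).2 h9)⟩
  refine cnt2 hsv hC hcz hs hv' hu hsvu hcop (fun p => if p ∈ s.primeFactors then
      Wq ((range (p ^ 2)).filter (fun n : ℕ => n % p = rs (tp t0 p : ℤ) p ∧
        ¬ (p : ℤ) ^ 2 ∣ (P (jt P (fun _ => true) (tp t0 p : ℤ) p)).eval (n : ℤ) ∧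
        sg0 p ((P (jt P (fun _ => true) (tp t0 p : ℤ) p)).eval (n : ℤ) / p) =
          (stt P (fun _ => true) (tp t0 p : ℤ) p).2.2)) (p ^ 2)
    else if p ∈ v.primeFactors then Wq (Vf P p) (p ^ 2) else Wq (rts (FF P) p) p)
    ?_ ?_ ?_ T ?_
  · intro p hp
    rw [if_pos hp]
    obtain ⟨⟨hz, -⟩, hpp⟩ := hsz p hp
    have h1 := mem_SpA.1 (stt_mem (ac := fun _ => true) hpp (hs1 t0 ht0 p hp).2.1)
    have h2 := card_half (P (jt P (fun _ => true) (tp t0 p : ℤ) p)) hpp (by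
      have := g.two
      omega) (rs (tp t0 p : ℤ) p) (stt P (fun _ => true) (tp t0 p : ℤ) p).2.2 h1.2.2
      (g.der p hpp hz _ _ h1.2.2)
    refine le_trans (Nat.cast_le.2 (card_Wq _ _)) ?_
    push_cast
    have hp0 : (0 : ℝ) ≤ (p : ℝ) ^ 2 := by positivity
    refine (mul_le_mul_of_nonneg_right h2 hp0).trans (le_of_eq ?_)
    ring
  · intro p hp
    rw [if_neg (evs p hp), if_pos hp, hc]
    exact (card_Wq _ _).trans (Nat.mul_le_mul_right _ (card_Vf g (hvz p hp).2 (hvz p hp).1.1))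
  · intro p hp
    rw [if_neg (eus p hp), if_neg (euv p hp), hc]
    refine (card_Wq _ _).trans (Nat.mul_le_mul_right _ ?_)
    rw [card_rts]
    exact g.rho_le_deg (huz p hp).2 (hzy.trans (huz p hp).1.1)
  · intro t ht
    obtain ⟨h1, h2, h1', h2', hco, h4, h5, h6⟩ := hT t ht
    refine ⟨h1, h2, h1', h2', ?_, ?_, ?_, ?_⟩
    · intro p hp
      have hpp := (hsz p hp).2
      rw [if_pos hp]
      have e := hst t ht t0 ht0 p hp
      have e1 : jt P (fun _ => true) (tp t p : ℤ) p = jt P (fun _ => true) (tp t0 p : ℤ) p :=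
        congrArg Sigma.fst e
      have e2 : rs (tp t p : ℤ) p = rs (tp t0 p : ℤ) p :=
        congrArg (fun σ : (Σ _ : J, ℕ × Bool) => σ.2.1) e
      have e3 : sg0 p ((P (jt P (fun _ => true) (tp t p : ℤ) p)).eval (tp t p : ℤ) / p) =
          (stt P (fun _ => true) (tp t0 p : ℤ) p).2.2 :=
        congrArg (fun σ : (Σ _ : J, ℕ × Bool) => σ.2.2) e
      obtain ⟨hb, hd, hd2⟩ := hs1 t ht p hp
      obtain ⟨h7, h8⟩ := jt_spec ((dvd_fa hpp).1 hd)
      have h9 : ¬ (p : ℤ) ^ 2 ∣ (P (jt P (fun _ => true) (tp t p : ℤ) p)).eval (tp t p : ℤ) :=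
        fun h' => hd2 ((sq_dvd_fa g hpp (hsz p hp).1.1 h7 h8).2 h')
      have hp2 : p ^ 2 ≠ 0 := pow_ne_zero _ hpp.ne_zero
      obtain ⟨hlt, htp⟩ := tp_spec hpp hb
      refine mem_Wq hp2 (x := tp t p) ?_ (by push_cast; exact htp)
      rw [mem_filter, mem_range, ← e1]
      refine ⟨hlt, ?_, h9, e3⟩
      rw [← e2]
      unfold rs
      rw [← Int.natCast_mod, Int.toNat_natCast]
    · intro p hp
      have hpp := (hvz p hp).2
      rw [if_neg (evs p hp), if_pos hp]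
      have h7 : p ∣ s2 z y (hv (FF P) t) := by
        rw [h5]
        exact Nat.dvd_of_mem_primeFactors hp
      have h8 := ((dvd_s2 hpp).1 h7).2
      have hb := not_dvd_b g hpp (hvz p hp).1.1 hco ((dvd_pow_self (p : ℤ) two_ne_zero).trans h8)
      have hp2 : p ^ 2 ≠ 0 := pow_ne_zero _ hpp.ne_zero
      obtain ⟨hlt, htp⟩ := tp_spec hpp hb
      refine mem_Wq hp2 (x := tp t p) ?_ (by push_cast; exact htp)
      unfold Vf
      rw [mem_filter, mem_range, ← eval_FF]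
      exact ⟨hlt, (hv_iff _ hpp hb 2 le_rfl).1 h8⟩
    · intro p hp
      have hpp := (huz p hp).2
      rw [if_neg (eus p hp), if_neg (euv p hp)]
      have h8 : (p : ℤ) ∣ hv (FF P) t :=
        (Int.natCast_dvd_natCast.2 (Nat.dvd_of_mem_primeFactors hp)).trans h6
      have hb := not_dvd_b g hpp (hzy.trans (huz p hp).1.1) hco h8
      obtain ⟨hlt, htp⟩ := tp_spec hpp hb
      have hr := rs_dvd (tp t p : ℤ) hpp.ne_zero
      refine mem_Wq hpp.ne_zero (x := rs (tp t p : ℤ) p) ?_ ?_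
      · unfold rts
        rw [mem_filter, mem_range]
        exact ⟨rs_lt _ hpp.ne_zero, (dvd_eval_congr (FF P) hr).1 ((hv_iff1 _ hpp hb).1 h8)⟩
      · have e : t.2 * (rs (tp t p : ℤ) p : ℤ) - t.1 =
            (t.2 * (tp t p : ℤ) - t.1) - t.2 * ((tp t p : ℤ) - (rs (tp t p : ℤ) p : ℤ)) := by ring
        rw [e]
        exact dvd_sub ((dvd_pow_self (p : ℤ) two_ne_zero).trans htp) (hr.mul_left _)
    · intro p hp hps hpv hd
      obtain ⟨⟨hz, hy⟩, hpp⟩ := mem_PS.1 hp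
      have hf : (p : ℤ) ∣ hv (FF P) t := hd
      by_cases h7 : (p : ℤ) ^ 2 ∣ hv (FF P) t
      · apply hpv
        rw [Nat.mem_primeFactors, ← h5]
        exact ⟨hpp, (dvd_s2 hpp).2 ⟨hp, h7⟩, by rw [h5]; exact dv_ne_zero hv'⟩
      · apply hps
        rw [Nat.mem_primeFactors, ← h4]
        exact ⟨hpp, (dvd_s1 hpp).2 ⟨hp, hf, h7⟩, by rw [h4]; exact dv_ne_zero hs⟩

end

end Pool.Agent.L0h5.TQ
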