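import Pool.Agent.L0h5.TQ.Crt2
import Pool.Agent.L0h5.TH.Sv

/-!
# Upper bound sieve for pairs, uniform in the conditions
-/

set_option autoImplicit false

namespace Pool.Agent.L0h5.TQ

open Finset Pool.Agent.W262.RK Pool.Agent.L0h5.TF

/-- the conditions in the progression -/
def RU (Q : ℕ → ℤ → ℤ → Prop) (z y : ℕ) (t1 t2 : ℤ) (m p n1 n2 : ℕ) : Prop :=
  p ∈ PS z y ∧ ¬ p ∣ m ∧ Q p (t1 + (m : ℤ) * n1) (t2 + (m : ℤ) * n2)

section

variable {Q : ℕ → ℤ → ℤ → Prop} {z y : ℕ}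

lemma RU_per (hper : ∀ p ∈ PS z y, ∀ a a' b b' : ℤ, (p : ℤ) ∣ a - a' → (p : ℤ) ∣ b - b' →
    (Q p a b ↔ Q p a' b')) (t1 t2 : ℤ) (m p n1 n2 : ℕ) :
    RU Q z y t1 t2 m p n1 n2 ↔ RU Q z y t1 t2 m p (n1 % p) (n2 % p) := by
  unfold RU
  refine and_congr_right fun hp => and_congr_right fun _ => ?_
  have h1 : ∀ n : ℕ, (p : ℤ) ∣ (n : ℤ) - ((n % p : ℕ) : ℤ) := by
    intro n
    push_cast
    exact Int.dvd_self_sub_emod
  apply hper p hp
  · have e : t1 + (m : ℤ) * n1 - (t1 + (m : ℤ) * ((n1 % p : ℕ) : ℤ)) =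
        m * ((n1 : ℤ) - ((n1 % p : ℕ) : ℤ)) := by ring
    rw [e]
    exact (h1 n1).mul_left _
  · have e : t2 + (m : ℤ) * n2 - (t2 + (m : ℤ) * ((n2 % p : ℕ) : ℤ)) =
        m * ((n2 : ℤ) - ((n2 % p : ℕ) : ℤ)) := by ring
    rw [e]
    exact (h1 n2).mul_left _

open Classical in
lemma cnt_zmod2 (p : ℕ) [NeZero p] (Φ : ZMod p → ZMod p → Prop) :
    ((range p ×ˢ range p).filter (fun x : ℕ × ℕ => Φ x.1 x.2)).card =
      (univ.filter (fun x : ZMod p × ZMod p => Φ x.1 x.2)).card := by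
  refine card_nbij' (fun x => ((x.1 : ZMod p), (x.2 : ZMod p))) (fun x => (x.1.val, x.2.val))
    ?_ ?_ ?_ ?_
  · intro x hx
    have hx' := mem_filter.1 (mem_coe.1 hx)
    rw [mem_coe, mem_filter]
    exact ⟨mem_univ _, hx'.2⟩
  · intro x hx
    have hx' := mem_filter.1 (mem_coe.1 hx)
    rw [mem_coe, mem_filter, mem_product, mem_range, mem_range]
    refine ⟨⟨ZMod.val_lt _, ZMod.val_lt _⟩, ?_⟩
    simp only [ZMod.natCast_zmod_val]
    exact hx'.2
  · intro x hx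
    have hx' := mem_filter.1 (mem_coe.1 hx)
    rw [mem_product, mem_range, mem_range] at hx'
    simp only [ZMod.val_cast_of_lt hx'.1.1, ZMod.val_cast_of_lt hx'.1.2]
  · intro x _
    simp only [ZMod.natCast_zmod_val]

open Classical in
lemma Np_RU (hper : ∀ p ∈ PS z y, ∀ a a' b b' : ℤ, (p : ℤ) ∣ a - a' → (p : ℤ) ∣ b - b' →
    (Q p a b ↔ Q p a' b')) (t1 t2 : ℤ) (m : ℕ) {p : ℕ} (hp : p ∈ PS z y) (hpm : ¬ p ∣ m) :
    Np (RU Q z y t1 t2 m) p =
      ((range p ×ˢ range p).filter (fun x : ℕ × ℕ => Q p (x.1 : ℤ) (x.2 : ℤ))).card := by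
  have hpp := (mem_PS.1 hp).2
  have : Fact p.Prime := ⟨hpp⟩
  have : NeZero p := ⟨hpp.ne_zero⟩
  have hm : (m : ZMod p) ≠ 0 := by
    intro h
    exact hpm ((ZMod.natCast_eq_zero_iff _ _).1 h)
  have hQ : ∀ a b a' b' : ℤ, (a : ZMod p) = (a' : ZMod p) → (b : ZMod p) = (b' : ZMod p) →
      (Q p a b ↔ Q p a' b') := by
    intro a b a' b' h1 h2
    apply hper p hp
    · rw [← ZMod.intCast_zmod_eq_zero_iff_dvd]
      push_cast
      rw [h1, sub_self]
    · rw [← ZMod.intCast_zmod_eq_zero_iff_dvd]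
      push_cast
      rw [h2, sub_self]
  have hval : ∀ x : ZMod p, (((x.val : ℕ) : ℤ) : ZMod p) = x := by
    intro x
    rw [Int.cast_natCast, ZMod.natCast_zmod_val]
  have h1 : Np (RU Q z y t1 t2 m) p = (univ.filter (fun x : ZMod p × ZMod p =>
      Q p (t1 + m * (x.1.val : ℤ)) (t2 + m * (x.2.val : ℤ)))).card := by
    rw [← cnt_zmod2 p fun x x' => Q p (t1 + m * (x.val : ℤ)) (t2 + m * (x'.val : ℤ))]
    unfold Np
    congr 1
    refine filter_congr fun n _ => ?_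
    unfold RU
    have e : Q p (t1 + m * (n.1 : ℤ)) (t2 + m * (n.2 : ℤ)) ↔
        Q p (t1 + m * ((((n.1 : ℕ) : ZMod p)).val : ℤ))
          (t2 + m * ((((n.2 : ℕ) : ZMod p)).val : ℤ)) := by
      apply hQ
      · push_cast
        have := hval (n.1 : ZMod p)
        push_cast at this
        rw [this]
      · push_cast
        have := hval (n.2 : ZMod p)
        push_cast at this
        rw [this]
    rw [← e]
    constructor
    · rintro ⟨-, -, h⟩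
      exact h
    · intro h
      exact ⟨hp, hpm, h⟩
  have h2 : ((range p ×ˢ range p).filter (fun x : ℕ × ℕ => Q p (x.1 : ℤ) (x.2 : ℤ))).card =
      (univ.filter (fun x : ZMod p × ZMod p => Q p (x.1.val : ℤ) (x.2.val : ℤ))).card := by
    rw [← cnt_zmod2 p fun x x' => Q p (x.val : ℤ) (x'.val : ℤ)]
    congr 1
    refine filter_congr fun n _ => ?_
    apply hQ
    · rw [hval, Int.cast_natCast]
    · rw [hval, Int.cast_natCast]
  rw [h1, h2]
  set φ : ℤ → (ZMod p ≃ ZMod p) := fun t => (Equiv.mulLeft₀ (m : ZMod p) hm).trans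
    (Equiv.addLeft (t : ZMod p)) with hφ
  have hφv : ∀ (t : ℤ) (x : ZMod p), ((t + m * (x.val : ℤ) : ℤ) : ZMod p) =
      ((((φ t x).val : ℕ) : ℤ) : ZMod p) := by
    intro t x
    rw [hval]
    push_cast
    have := hval x
    push_cast at this
    rw [this]
    rfl
  refine card_bij (fun x _ => (φ t1 x.1, φ t2 x.2)) ?_ ?_ ?_
  · intro x hx
    rw [mem_filter] at hx ⊢
    exact ⟨mem_univ _, (hQ _ _ _ _ (hφv t1 x.1) (hφv t2 x.2)).1 hx.2⟩
  · intro a _ b _ hab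
    simp only [Prod.mk.injEq] at hab
    exact Prod.ext ((φ t1).injective hab.1) ((φ t2).injective hab.2)
  · intro b hb
    refine ⟨((φ t1).symm b.1, (φ t2).symm b.2), ?_, by simp⟩
    rw [mem_filter] at hb ⊢
    refine ⟨mem_univ _, (hQ _ _ _ _ (hφv t1 _) (hφv t2 _)).2 ?_⟩
    rw [Equiv.apply_symm_apply, Equiv.apply_symm_apply]
    exact hb.2

/-- the least element of a class to the right of `x` -/
def lst0 (x r : ℤ) (m : ℕ) : ℤ := x + 1 + (r - x - 1) % m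

lemma key0 {x r : ℤ} {X m : ℕ} (hm : 0 < m) {t : ℤ} (h1 : x < t) (h2 : t ≤ x + X)
    (h3 : (m : ℤ) ∣ t - r) : ∃ k : ℕ, t = lst0 x r m + m * k ∧ k ≤ X / m := by
  have hmz : (0 : ℤ) < m := by exact_mod_cast hm
  have hd0 : (m : ℤ) ∣ lst0 x r m - r := by
    unfold lst0
    have h1 := Int.dvd_self_sub_emod (x := r - x - 1) (m := (m : ℤ))
    have e : x + 1 + (r - x - 1) % m - r = -((r - x - 1) - (r - x - 1) % m) := by ring
    rw [e]
    exact h1.neg_right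
  have h0 := Int.emod_nonneg (r - x - 1) hmz.ne'
  have h0' := Int.emod_lt_of_pos (r - x - 1) hmz
  have h4 : (m : ℤ) ∣ t - lst0 x r m := by
    have e : t - lst0 x r m = (t - r) - (lst0 x r m - r) := by ring
    rw [e]
    exact dvd_sub h3 hd0
  obtain ⟨k, hk⟩ := h4
  have hle : lst0 x r m = x + 1 + (r - x - 1) % m := rfl
  have hk0 : 0 ≤ k := by
    by_contra hcon
    have h5 : k ≤ -1 := by omega
    have h6 : (m : ℤ) * k ≤ m * (-1) := mul_le_mul_of_nonneg_left h5 hmz.le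
    omega
  obtain ⟨k', rfl⟩ := Int.eq_ofNat_of_zero_le hk0
  refine ⟨k', by linarith, ?_⟩
  rw [Nat.le_div_iff_mul_le hm]
  have h7 : ((m * k' : ℕ) : ℤ) ≤ X := by
    push_cast
    rw [← hk]
    omega
  have h8 : m * k' ≤ X := by exact_mod_cast h7
  rwa [mul_comm]

open Classical in
lemma count_le2 {x1 x2 r1 r2 : ℤ} {X m : ℕ} (hm : 0 < m) (T' : Finset (ℤ × ℤ))
    (hT : ∀ t ∈ T', x1 < t.1 ∧ t.1 ≤ x1 + X ∧ x2 < t.2 ∧ t.2 ≤ x2 + X ∧ (m : ℤ) ∣ t.1 - r1 ∧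
      (m : ℤ) ∣ t.2 - r2 ∧ ∀ p ∈ PS z y, ¬ p ∣ m → ¬ Q p t.1 t.2) :
    T'.card ≤ ((range (X / m + 1) ×ˢ range (X / m + 1)).filter (fun n : ℕ × ℕ =>
        ∀ p ∈ (PS z y).filter (fun p => ¬ p ∣ m),
          ¬ RU Q z y (lst0 x1 r1 m) (lst0 x2 r2 m) m p n.1 n.2)).card := by
  have hmz : (0 : ℤ) < m := by exact_mod_cast hm
  refine card_le_card_of_injOn (fun t => (((t.1 - lst0 x1 r1 m) / m).toNat,
    ((t.2 - lst0 x2 r2 m) / m).toNat)) ?_ ?_
  · intro t ht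
    obtain ⟨h1, h2, h3, h4, h5, h6, h7⟩ := hT t (Finset.mem_coe.1 ht)
    obtain ⟨k, hk, hkX⟩ := key0 hm h1 h2 h5
    obtain ⟨l, hl, hlX⟩ := key0 hm h3 h4 h6
    have e1 : (t.1 - lst0 x1 r1 m) / m = k := by
      rw [hk, add_sub_cancel_left, Int.mul_ediv_cancel_left _ hmz.ne']
    have e2 : (t.2 - lst0 x2 r2 m) / m = l := by
      rw [hl, add_sub_cancel_left, Int.mul_ediv_cancel_left _ hmz.ne']
    simp only
    rw [e1, e2, Int.toNat_natCast, Int.toNat_natCast, Finset.mem_coe, mem_filter, mem_product,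
      mem_range, mem_range]
    refine ⟨⟨by omega, by omega⟩, fun p _ hQ => ?_⟩
    obtain ⟨hpPS, hpm, hj⟩ := hQ
    simp only at hj
    rw [← hk, ← hl] at hj
    exact h7 p hpPS hpm hj
  · intro a ha b hb hab
    obtain ⟨h1, h2, h3, h4, h5, h6, -⟩ := hT a (Finset.mem_coe.1 ha)
    obtain ⟨h1', h2', h3', h4', h5', h6', -⟩ := hT b (Finset.mem_coe.1 hb)
    obtain ⟨k, hk, -⟩ := key0 hm h1 h2 h5
    obtain ⟨l, hl, -⟩ := key0 hm h3 h4 h6
    obtain ⟨k', hk', -⟩ := key0 hm h1' h2' h5'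
    obtain ⟨l', hl', -⟩ := key0 hm h3' h4' h6'
    have e1 : (a.1 - lst0 x1 r1 m) / m = k := by
      rw [hk, add_sub_cancel_left, Int.mul_ediv_cancel_left _ hmz.ne']
    have e2 : (a.2 - lst0 x2 r2 m) / m = l := by
      rw [hl, add_sub_cancel_left, Int.mul_ediv_cancel_left _ hmz.ne']
    have e3 : (b.1 - lst0 x1 r1 m) / m = k' := by
      rw [hk', add_sub_cancel_left, Int.mul_ediv_cancel_left _ hmz.ne']
    have e4 : (b.2 - lst0 x2 r2 m) / m = l' := by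
      rw [hl', add_sub_cancel_left, Int.mul_ediv_cancel_left _ hmz.ne']
    simp only [e1, e2, e3, e4, Int.toNat_natCast, Prod.mk.injEq] at hab
    refine Prod.ext ?_ ?_
    · rw [hk, hk', hab.1]
    · rw [hl, hl', hab.2]

end

end Pool.Agent.L0h5.TQ
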