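import Pool.Agent.L0h5.TQ.Sv2

/-!
# Upper bound sieve for pairs, uniform in the conditions: the theorem
-/

set_option autoImplicit false

namespace Pool.Agent.L0h5.TQ

open Finset Pool.Agent.W262.RK Pool.Agent.L0h5.TF

/-- sets of primes with bounded product -/
lemma card_small_sets (P : Finset ℕ) (hP : ∀ p ∈ P, p.Prime) (D : ℕ) :
    (P.powerset.filter (fun T : Finset ℕ => ∏ p ∈ T, p ≤ D)).card ≤ D := by
  have h1 : (P.powerset.filter (fun T : Finset ℕ => ∏ p ∈ T, p ≤ D)).card ≤ (Icc 1 D).card := by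
    apply card_le_card_of_injOn (fun T => ∏ p ∈ T, p)
    · intro T hT
      have hT' := mem_filter.1 (mem_coe.1 hT)
      rw [mem_powerset] at hT'
      rw [mem_coe, mem_Icc]
      exact ⟨prod_pos fun p hp => (hP p (hT'.1 hp)).pos, hT'.2⟩
    · intro T hT T' hT' h
      have h1 := mem_filter.1 (mem_coe.1 hT)
      have h2 := mem_filter.1 (mem_coe.1 hT')
      rw [mem_powerset] at h1 h2
      have h3 := Nat.primeFactors_prod (fun p hp => hP p (h1.1 hp))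
      have h4 := Nat.primeFactors_prod (fun p hp => hP p (h2.1 hp))
      simp only at h
      rw [← h3, ← h4, h]
  rw [Nat.card_Icc] at h1
  omega

open Classical in
/-- the fundamental lemma for pairs -/
lemma fund2 (c : ℕ) : ∃ C0 : ℕ, 1 ≤ C0 ∧ ∀ (z y : ℕ), C0 ≤ z → z < y → 3 ≤ y →
    ∀ (P : Finset ℕ), P ⊆ PS z y → ∀ (R : ℕ → ℕ → ℕ → Prop),
    (∀ p x y, R p x y ↔ R p (x % p) (y % p)) → (∀ p ∈ P, Np R p ≤ c * p) → ∀ L : ℕ, 1 ≤ L →
    ((((range L ×ˢ range L).filter (fun x : ℕ × ℕ => ∀ p ∈ P, ¬ R p x.1 x.2)).card : ℕ) : ℝ) ≤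
      2 * (((L : ℝ) ^ 2) * ∏ p ∈ P, (1 - (Np R p : ℝ) / (p : ℝ) ^ 2)) +
        ((y : ℝ) ^ (6 * (C0 * C0) + 3)) * L := by
  obtain ⟨C0, hC0, hFL⟩ := Pool.Agent.H20R2.fLem (c + 1)
  refine ⟨C0, hC0, fun z y hz hzy hy3 P hP R hper hN L hL => ?_⟩
  set J := Pool.Agent.H373R2.T7.JJ y with hJ
  set D : ℕ := (2 ^ 2 ^ J) ^ (C0 * C0) with hD
  have hyJ := Pool.Agent.H373R2.T7.JJ_lt y
  have hJy := Pool.Agent.H373R2.T7.JJ_le y (by omega)
  have hJs := Pool.Agent.H373R2.T7.JJ_small y hy3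
  rw [← hJ] at hyJ hJy hJs
  have hPp : ∀ p ∈ P, p.Prime ∧ z < p ∧ p ≤ 2 ^ 2 ^ J := by
    intro p hp
    obtain ⟨⟨h1, h2⟩, h3⟩ := mem_PS.1 (hP hp)
    exact ⟨h3, h1, h2.trans hyJ.le⟩
  set g : ℕ → ℝ := fun p => (Np R p : ℝ) / (p : ℝ) ^ 2 with hg
  have hg0 : ∀ p ∈ P, 0 ≤ g p ∧ g p ≤ ((c + 1 : ℕ) : ℝ) / ((p : ℝ) - 1) := by
    intro p hp
    have hp1 : (1 : ℝ) < p := by exact_mod_cast (hPp p hp).1.one_lt
    have hp0 : (0 : ℝ) < p := by linarith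
    have h1 : (Np R p : ℝ) ≤ c * p := by exact_mod_cast hN p hp
    refine ⟨by rw [hg]; positivity, ?_⟩
    rw [hg]
    simp only
    rw [div_le_div_iff₀ (by positivity) (by linarith)]
    push_cast
    have hc0 : (0 : ℝ) ≤ c := Nat.cast_nonneg c
    have h2 : (Np R p : ℝ) * (p - 1) ≤ (c * p) * p := by
      apply mul_le_mul h1 (by linarith) (by linarith) (by positivity)
    nlinarith
  have hgl : ∀ p ∈ P, g p ≤ 1 := by
    intro p hp
    have hp0 : (0 : ℝ) < p := by exact_mod_cast (hPp p hp).1.pos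
    rw [hg]
    simp only
    rw [div_le_one (by positivity)]
    have h1 : Np R p ≤ p * p := by
      unfold Np
      refine (card_filter_le _ _).trans (le_of_eq ?_)
      rw [card_product, card_range]
    have h2 : (Np R p : ℝ) ≤ ((p * p : ℕ) : ℝ) := by exact_mod_cast h1
    push_cast at h2
    rw [sq]
    exact h2
  set Ω : Finset ℕ := (range L ×ˢ range L).image (fun x : ℕ × ℕ => Nat.pair x.1 x.2) with hΩ
  have hcard : ∀ (Φ : ℕ → ℕ → Prop) (i1 : DecidablePred fun n : ℕ => Φ n.unpair.1 n.unpair.2)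
      (i2 : DecidablePred fun x : ℕ × ℕ => Φ x.1 x.2),
      ((@filter _ (fun n : ℕ => Φ n.unpair.1 n.unpair.2) i1 Ω).card : ℝ) =
      ((@filter _ (fun x : ℕ × ℕ => Φ x.1 x.2) i2 (range L ×ˢ range L)).card : ℝ) := by
    intro Φ i1 i2
    have h1 : (@filter _ (fun n : ℕ => Φ n.unpair.1 n.unpair.2) i1 Ω).card =
        (@filter _ (fun x : ℕ × ℕ => Φ x.1 x.2) i2 (range L ×ˢ range L)).card := by
      symm
      refine card_bij (fun x _ => Nat.pair x.1 x.2) ?_ ?_ ?_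
      · intro x hx
        have hx' := (@mem_filter _ (fun x : ℕ × ℕ => Φ x.1 x.2) i2 _ _).1 hx
        refine (@mem_filter _ (fun n : ℕ => Φ n.unpair.1 n.unpair.2) i1 _ _).2
          ⟨mem_image_of_mem _ hx'.1, ?_⟩
        show Φ (Nat.pair x.1 x.2).unpair.1 (Nat.pair x.1 x.2).unpair.2
        rw [Nat.unpair_pair]
        exact hx'.2
      · intro x _ x' _ h
        have h1 := congrArg Nat.unpair h
        simp only [Nat.unpair_pair] at h1
        exact h1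
      · intro n hn
        have hn' := (@mem_filter _ (fun n : ℕ => Φ n.unpair.1 n.unpair.2) i1 _ _).1 hn
        rw [hΩ, mem_image] at hn'
        obtain ⟨⟨x, hx, rfl⟩, h2⟩ := hn'
        rw [Nat.unpair_pair] at h2
        exact ⟨x, (@mem_filter _ (fun x : ℕ × ℕ => Φ x.1 x.2) i2 _ _).2 ⟨hx, h2⟩, rfl⟩
    rw [h1]
  have hprodnn : ∀ T ⊆ P, 0 ≤ ∏ p ∈ T, (1 - g p) := fun T hT => prod_nonneg fun p hp => by
    have := hgl p (hT hp)
    linarith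
  have key := hFL C0 J z P g le_rfl hz hPp hg0 Ω (fun _ => (1 : ℝ))
    (fun p n => R p n.unpair.1 n.unpair.2) ((L : ℝ) ^ 2) (fun _ => (D : ℝ) ^ 2 * (2 * L + 1))
    (fun _ _ => zero_le_one) (by positivity) (by
      intro T hT hTD
      rw [sum_const, nsmul_eq_mul, mul_one]
      refine le_trans (le_of_eq (congrArg (fun u : ℝ => |u - (L : ℝ) ^ 2 * ∏ p ∈ T, g p|)
        (hcard (fun a b => ∀ p ∈ T, R p a b) _ _)))
        ((count_box hper T (fun p hp => (hPp p (hT hp)).1) L).trans ?_)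
      apply mul_le_mul_of_nonneg_right _ (by positivity)
      have h2 : ((∏ p ∈ T, p : ℕ) : ℝ) ≤ D := by exact_mod_cast hTD
      exact pow_le_pow_left₀ (Nat.cast_nonneg _) h2 2)
  rw [sum_const, nsmul_eq_mul, mul_one, sum_const, nsmul_eq_mul] at key
  have h2 : ((((range L ×ˢ range L).filter (fun x : ℕ × ℕ => ∀ p ∈ P, ¬ R p x.1 x.2)).card : ℕ) :
      ℝ) - (L : ℝ) ^ 2 * ∏ p ∈ P, (1 - g p) ≤ _ :=
    le_trans (le_of_eq (congrArg (fun u : ℝ => u - (L : ℝ) ^ 2 * ∏ p ∈ P, (1 - g p))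
      (hcard (fun a b => ∀ p ∈ P, ¬ R p a b) _ _).symm)) (abs_le.1 key).2
  set A : ℝ := (L : ℝ) ^ 2 * ∏ p ∈ P, (1 - g p) with hA
  have hA0 : 0 ≤ A := mul_nonneg (by positivity) (hprodnn P subset_rfl)
  have h3 : (1 / 2 : ℝ) ^ C0 * A ≤ A := by
    have : (1 / 2 : ℝ) ^ C0 ≤ 1 := pow_le_one₀ (by norm_num) (by norm_num)
    nlinarith
  have hyr : (3 : ℝ) ≤ y := by exact_mod_cast hy3
  have hLr : (1 : ℝ) ≤ L := by exact_mod_cast hL
  have hDy : (D : ℝ) ≤ (y : ℝ) ^ (2 * (C0 * C0)) := by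
    have h4 : D ≤ (y ^ 2) ^ (C0 * C0) := Nat.pow_le_pow_left hJy _
    rw [← pow_mul] at h4
    exact_mod_cast h4
  have h4 : ((P.powerset.filter (fun T : Finset ℕ => ∏ p ∈ T, p ≤ (2 ^ 2 ^ J) ^ (C0 * C0))).card :
      ℝ) ≤ D := by
    exact_mod_cast card_small_sets P (fun p hp => (hPp p hp).1) D
  have h5 : ((J : ℝ) + 2) ≤ 2 * y := by exact_mod_cast hJs
  have h6 : ((J : ℝ) + 2) * (((P.powerset.filter (fun T : Finset ℕ =>
      ∏ p ∈ T, p ≤ (2 ^ 2 ^ J) ^ (C0 * C0))).card : ℝ) * ((D : ℝ) ^ 2 * (2 * L + 1))) ≤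
      ((y : ℝ) ^ (6 * (C0 * C0) + 3)) * L := by
    have hD0 : (0 : ℝ) ≤ D := Nat.cast_nonneg _
    have hL3 : 2 * (L : ℝ) + 1 ≤ 3 * L := by linarith only [hLr]
    calc ((J : ℝ) + 2) * (((P.powerset.filter (fun T : Finset ℕ =>
          ∏ p ∈ T, p ≤ (2 ^ 2 ^ J) ^ (C0 * C0))).card : ℝ) * ((D : ℝ) ^ 2 * (2 * L + 1)))
        ≤ (2 * y) * ((D : ℝ) * ((D : ℝ) ^ 2 * (3 * L))) := by
          have hyn : (0 : ℝ) ≤ 2 * y := mul_nonneg zero_le_two (Nat.cast_nonneg _)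
          have hLn : (0 : ℝ) ≤ 2 * L + 1 := by linarith only [hLr]
          have hDn : (0 : ℝ) ≤ (D : ℝ) ^ 2 := pow_nonneg hD0 2
          exact mul_le_mul h5 (mul_le_mul h4 (mul_le_mul_of_nonneg_left hL3 hDn)
            (mul_nonneg hDn hLn) hD0) (mul_nonneg (Nat.cast_nonneg _) (mul_nonneg hDn hLn)) hyn
      _ = 6 * y * (D : ℝ) ^ 3 * L := by ring
      _ ≤ 6 * y * ((y : ℝ) ^ (2 * (C0 * C0))) ^ 3 * L := by gcongr
      _ = 6 * (y : ℝ) ^ (6 * (C0 * C0) + 1) * L := by ring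
      _ ≤ (y : ℝ) ^ 2 * (y : ℝ) ^ (6 * (C0 * C0) + 1) * L := by
          gcongr
          nlinarith
      _ = _ := by ring
  linarith

set_option maxHeartbeats 1000000 in
open Classical in
/-- the sieve for pairs, uniform in the conditions -/
theorem sv2 (c N : ℕ) : ∃ zs : ℕ, ∀ z : ℕ, zs ≤ z → 2 * c + 2 ≤ z → ∀ C0 : ℝ,
    ∃ (C : ℝ) (K y0 : ℕ), 0 ≤ C ∧ 1 ≤ K ∧ ∀ X y : ℕ, y0 ≤ y → z < y → y ^ K ≤ X →
    ∀ (x1 x2 r1 r2 : ℤ) (m : ℕ), 1 ≤ m → m ^ 4 ≤ X → ∀ (Q : ℕ → ℤ → ℤ → Prop) (ν : ℕ → ℕ),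
    (∀ p ∈ PS z y, ∀ a a' b b' : ℤ, (p : ℤ) ∣ a - a' → (p : ℤ) ∣ b - b' →
      (Q p a b ↔ Q p a' b')) →
    (∀ p ∈ PS z y, ¬ p ∣ m →
      ((range p ×ˢ range p).filter (fun x : ℕ × ℕ => Q p (x.1 : ℤ) (x.2 : ℤ))).card = ν p) →
    (∀ p ∈ PS z y, ν p ≤ c * p) →
    (N * Real.log (Real.log y) - C0 ≤ ∑ p ∈ PS z y, (ν p : ℝ) / (p : ℝ) ^ 2) →
    ∀ T' : Finset (ℤ × ℤ), (∀ t ∈ T', x1 < t.1 ∧ t.1 ≤ x1 + X ∧ x2 < t.2 ∧ t.2 ≤ x2 + X ∧
      (m : ℤ) ∣ t.1 - r1 ∧ (m : ℤ) ∣ t.2 - r2 ∧ ∀ p ∈ PS z y, ¬ p ∣ m → ¬ Q p t.1 t.2) →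
    (T'.card : ℝ) ≤
      C * (X / m) ^ 2 * (∏ p ∈ m.primeFactors.filter (fun p => p ∈ PS z y),
        (p : ℝ) / ((p : ℝ) - c)) / (Real.log y) ^ N := by
  obtain ⟨CF, hCF, hF⟩ := fund2 c
  refine ⟨CF, fun z hzCF hz C0 => ?_⟩
  set K' : ℕ := 6 * (CF * CF) + 3 with hK'
  set C1 : ℝ := Real.exp C0 with hC1d
  have hC1 : 0 < C1 := Real.exp_pos _
  refine ⟨8 * C1 + 1, 2 * (K' + N + 1), 3, by positivity, by omega,
    fun X y hy3 hzy hyX x1 x2 r1 r2 m hm1 hmX4 Q ν hper hνe hνc hC0 T' hT => ?_⟩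
  have hmpos : 0 < m := hm1
  have hm0 : m ≠ 0 := hmpos.ne'
  have hr := count_le2 (Q := Q) (z := z) (y := y) hmpos T' hT
  set R := RU Q z y (lst0 x1 r1 m) (lst0 x2 r2 m) m with hR
  set P : Finset ℕ := (PS z y).filter (fun p => ¬ p ∣ m) with hP
  have hnu : ∀ p ∈ P, Np R p = ν p := by
    intro p hp
    rw [hP, mem_filter] at hp
    exact (Np_RU hper _ _ m hp.1 hp.2).trans (hνe p hp.1 hp.2)
  have hfund := hF z y hzCF hzy hy3 P (filter_subset _ _) R (RU_per hper _ _ m)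
    (fun p hp => by
      rw [hnu p hp]
      exact hνc p (mem_filter.1 hp).1) (X / m + 1) (Nat.le_add_left 1 _)
  have hprod : ∏ p ∈ P, (1 - (Np R p : ℝ) / (p : ℝ) ^ 2) =
      ∏ p ∈ P, (1 - (ν p : ℝ) / (p : ℝ) ^ 2) := prod_congr rfl fun p hp => by rw [hnu p hp]
  rw [hprod] at hfund
  obtain ⟨A, hA⟩ : ∃ A : ℝ, A = ∏ p ∈ P, (1 - (ν p : ℝ) / (p : ℝ) ^ 2) := ⟨_, rfl⟩
  obtain ⟨B, hB⟩ : ∃ B : ℝ, B = ∏ p ∈ m.primeFactors.filter (fun p => p ∈ PS z y),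
    (1 - (ν p : ℝ) / (p : ℝ) ^ 2) := ⟨_, rfl⟩
  obtain ⟨D, hD⟩ : ∃ D : ℝ, D = ∏ p ∈ m.primeFactors.filter (fun p => p ∈ PS z y),
    ((p : ℝ) / ((p : ℝ) - c)) := ⟨_, rfl⟩
  have hzc : ∀ p ∈ PS z y, (c : ℝ) + 1 ≤ p := by
    intro p hp
    have h1 := (mem_PS.1 hp).1.1
    exact_mod_cast (by omega : c + 1 ≤ p)
  have hrc : ∀ p ∈ PS z y, (ν p : ℝ) / (p : ℝ) ^ 2 ≤ c / p := by
    intro p hp
    have hp0 : (0 : ℝ) < p := by exact_mod_cast (mem_PS.1 hp).2.pos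
    have h1 : (ν p : ℝ) ≤ c * p := by exact_mod_cast hνc p hp
    rw [div_le_div_iff₀ (by positivity) hp0]
    nlinarith
  have hcp : ∀ p ∈ PS z y, (c : ℝ) / p < 1 := by
    intro p hp
    have hp0 : (0 : ℝ) < p := by exact_mod_cast (mem_PS.1 hp).2.pos
    rw [div_lt_one hp0]
    have := hzc p hp
    linarith
  have hfpos : ∀ p ∈ PS z y, 0 < 1 - (ν p : ℝ) / (p : ℝ) ^ 2 := by
    intro p hp
    have h1 := hrc p hp
    have h2 := hcp p hp
    linarith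
  have hApos : 0 < A := by
    rw [hA]; exact prod_pos fun p hp => hfpos p (mem_filter.1 hp).1
  have hBpos : 0 < B := by
    rw [hB]; exact prod_pos fun p hp => hfpos p (mem_filter.1 hp).2
  have hAB : A * B = ∏ p ∈ PS z y, (1 - (ν p : ℝ) / (p : ℝ) ^ 2) := by
    have h1 : m.primeFactors.filter (fun p => p ∈ PS z y) = (PS z y).filter (fun p => ¬ ¬ p ∣ m) := by
      ext p
      rw [mem_filter, mem_filter, not_not]
      constructor
      · rintro ⟨hp, hp2⟩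
        exact ⟨hp2, Nat.dvd_of_mem_primeFactors hp⟩
      · rintro ⟨h2, h3⟩
        exact ⟨Nat.mem_primeFactors.2 ⟨(mem_PS.1 h2).2, h3, hm0⟩, h2⟩
    rw [hA, hB, h1, hP]
    exact prod_filter_mul_prod_filter_not _ _ _
  have hDB : 1 ≤ D * B := by
    rw [hD, hB, ← prod_mul_distrib]
    have h1 : ∀ p ∈ m.primeFactors.filter (fun p => p ∈ PS z y),
        (1 : ℝ) ≤ (p : ℝ) / ((p : ℝ) - c) * (1 - (ν p : ℝ) / (p : ℝ) ^ 2) := by
      intro p hp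
      have h1 := hzc p (mem_filter.1 hp).2
      have h1' := hrc p (mem_filter.1 hp).2
      have hp0 : (0 : ℝ) < p := by exact_mod_cast (mem_PS.1 (mem_filter.1 hp).2).2.pos
      have h2 : 0 < (p : ℝ) - c := by linarith
      have h3 : (1 : ℝ) = (p : ℝ) / ((p : ℝ) - c) * (1 - c / p) := by
        field_simp
      calc (1 : ℝ) = (p : ℝ) / ((p : ℝ) - c) * (1 - c / p) := h3
        _ ≤ _ := mul_le_mul_of_nonneg_left (by linarith) (by positivity)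
    calc (1 : ℝ) = ∏ p ∈ m.primeFactors.filter (fun p => p ∈ PS z y), (1 : ℝ) := by
          rw [prod_const_one]
      _ ≤ _ := prod_le_prod (fun _ _ => zero_le_one) h1
  have hD1 : 1 ≤ D := by
    rw [hD]
    have h1 : ∀ p ∈ m.primeFactors.filter (fun p => p ∈ PS z y),
        (1 : ℝ) ≤ (p : ℝ) / ((p : ℝ) - c) := by
      intro p hp
      have h1 := hzc p (mem_filter.1 hp).2
      have h2 : 0 < (p : ℝ) - c := by linarith
      rw [le_div_iff₀ h2]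
      have : (0 : ℝ) ≤ c := Nat.cast_nonneg c
      linarith
    calc (1 : ℝ) = ∏ p ∈ m.primeFactors.filter (fun p => p ∈ PS z y), (1 : ℝ) := by
          rw [prod_const_one]
      _ ≤ _ := prod_le_prod (fun _ _ => zero_le_one) h1
  have hDpos : 0 < D := by linarith
  have hyr : (3 : ℝ) ≤ y := by exact_mod_cast hy3
  have hl1 : 1 < Real.log y := by
    rw [Real.lt_log_iff_exp_lt (by linarith)]
    have := Real.exp_one_lt_d9
    linarith
  have hPr : ∏ p ∈ PS z y, (1 - (ν p : ℝ) / (p : ℝ) ^ 2) ≤ C1 / (Real.log y) ^ N := by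
    have h1 : ∏ p ∈ PS z y, (1 - (ν p : ℝ) / (p : ℝ) ^ 2) ≤
        ∏ p ∈ PS z y, Real.exp (-((ν p : ℝ) / (p : ℝ) ^ 2)) := by
      apply prod_le_prod
      · intro p hp
        exact (hfpos p hp).le
      · intro p _
        have := Real.add_one_le_exp (-((ν p : ℝ) / (p : ℝ) ^ 2))
        linarith
    refine h1.trans ?_
    rw [← Real.exp_sum, sum_neg_distrib]
    have h4 : Real.log y ^ N = Real.exp (N * Real.log (Real.log y)) := by
      rw [← Real.log_pow, Real.exp_log (by positivity)]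
    rw [h4, hC1d, ← Real.exp_sub]
    apply Real.exp_le_exp.2
    linarith
  have hAle : A ≤ (C1 / (Real.log y) ^ N) * D := by
    have h1 : A ≤ (A * B) * D := by
      calc A = A * 1 := (mul_one _).symm
        _ ≤ A * (D * B) := mul_le_mul_of_nonneg_left hDB hApos.le
        _ = _ := by ring
    refine h1.trans ?_
    rw [hAB]
    exact mul_le_mul_of_nonneg_right hPr hDpos.le
  have hly : Real.log y ≤ y := by
    have := Real.log_le_sub_one_of_pos (by linarith : (0 : ℝ) < y)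
    linarith
  have hLpos : 0 < (Real.log y) ^ N := by positivity
  have hmX : m * y ^ (K' + N + 1) ≤ X := by
    have h1 : (m * y ^ (K' + N + 1)) ^ 4 ≤ X ^ 4 := by
      calc (m * y ^ (K' + N + 1)) ^ 4 = m ^ 4 * (y ^ (K' + N + 1)) ^ 4 := by rw [mul_pow]
        _ ≤ m ^ 4 * (y ^ (K' + N + 1)) ^ 6 := by
          apply Nat.mul_le_mul_left
          exact Nat.pow_le_pow_right (pow_pos (by omega) _) (by norm_num)
        _ = m ^ 4 * (y ^ (2 * (K' + N + 1))) ^ 3 := by ring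
        _ ≤ X * X ^ 3 := Nat.mul_le_mul hmX4 (Nat.pow_le_pow_left hyX 3)
        _ = X ^ 4 := by ring
    exact (Nat.pow_le_pow_iff_left (by norm_num)).1 h1
  have hmX' : m ≤ X := by
    refine le_trans ?_ hmX
    exact Nat.le_mul_of_pos_right _ (pow_pos (by omega) _)
  have hmr : (0 : ℝ) < m := by exact_mod_cast hmpos
  have hX' : ((X / m + 1 : ℕ) : ℝ) ≤ 2 * (X / m) := by
    have h1 : (X / m + 1) * m ≤ 2 * X := by
      have := Nat.div_mul_le_self X m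
      rw [add_mul, one_mul]
      omega
    have h2 : ((X / m + 1 : ℕ) : ℝ) * m ≤ 2 * X := by exact_mod_cast h1
    rw [← mul_div_assoc, le_div_iff₀ hmr]
    exact h2
  have hW0 : (0 : ℝ) ≤ X / m := by positivity
  have h5 : (y : ℝ) ^ (K' + N + 1) ≤ X / m := by
    have h4 : (m : ℝ) * (y : ℝ) ^ (K' + N + 1) ≤ X := by exact_mod_cast hmX
    rw [le_div_iff₀ hmr, mul_comm]
    exact h4
  have herr : ((y : ℝ) ^ K') * ((X / m + 1 : ℕ) : ℝ) ≤ (X / m) ^ 2 * D / (Real.log y) ^ N := by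
    rw [le_div_iff₀ hLpos]
    have h3 : (Real.log y) ^ N ≤ (y : ℝ) ^ N := pow_le_pow_left₀ (by linarith) hly _
    have hy0 : (0 : ℝ) ≤ y := by linarith
    calc (y : ℝ) ^ K' * ((X / m + 1 : ℕ) : ℝ) * (Real.log y) ^ N
        ≤ (y : ℝ) ^ K' * (2 * (X / m)) * (y : ℝ) ^ N := by gcongr
      _ = 2 * ((y : ℝ) ^ (K' + N)) * (X / m) := by
          rw [pow_add]
          ring
      _ ≤ y * ((y : ℝ) ^ (K' + N)) * (X / m) := by
          gcongr
          linarith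
      _ = ((y : ℝ) ^ (K' + N + 1)) * (X / m) := by ring
      _ ≤ (X / m) * (X / m) := mul_le_mul_of_nonneg_right h5 hW0
      _ = (X / m) ^ 2 * 1 := by ring
      _ ≤ (X / m) ^ 2 * D := mul_le_mul_of_nonneg_left hD1 (by positivity)
  have hmain : 2 * (((X / m + 1 : ℕ) : ℝ) ^ 2 * A) ≤
      8 * C1 * (X / m) ^ 2 * D / (Real.log y) ^ N := by
    calc 2 * (((X / m + 1 : ℕ) : ℝ) ^ 2 * A) ≤
        2 * ((2 * (X / m)) ^ 2 * ((C1 / (Real.log y) ^ N) * D)) := by gcongr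
      _ = _ := by ring
  have hcnt : (T'.card : ℝ) ≤ 2 * (((X / m + 1 : ℕ) : ℝ) ^ 2 * A) +
      ((y : ℝ) ^ K') * ((X / m + 1 : ℕ) : ℝ) := by
    have h1 : (T'.card : ℝ) ≤ (((range (X / m + 1) ×ˢ range (X / m + 1)).filter
        (fun n : ℕ × ℕ => ∀ p ∈ P, ¬ R p n.1 n.2)).card : ℝ) := by
      exact_mod_cast hr
    rw [← hA] at hfund
    exact h1.trans hfund
  rw [← hD]
  calc (T'.card : ℝ)
      ≤ 2 * (((X / m + 1 : ℕ) : ℝ) ^ 2 * A) + ((y : ℝ) ^ K') * ((X / m + 1 : ℕ) : ℝ) := hcnt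
    _ ≤ 8 * C1 * (X / m) ^ 2 * D / (Real.log y) ^ N + (X / m) ^ 2 * D / (Real.log y) ^ N :=
        add_le_add hmain herr
    _ = (8 * C1 + 1) * (X / m) ^ 2 * D / (Real.log y) ^ N := by ring

end Pool.Agent.L0h5.TQ
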